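import Pool.Agent.H86.FD.Time
import Pool.Agent.H18.G.WM
import Pool.Agent.H81.GT.CLS
import Pool.Agent.H88.FD.TargetsC

/-!
MP_ee74d2_an, theorem FD, data layer: the wave belongs to the class `EnX`.
-/

set_option autoImplicit false

namespace Pool.Agent.H86.FD

open MeasureTheory Set FourierTransform
open scoped ENNReal NNReal RealInnerProductSpace
open Pool.Agent.H83.LS
open Pool.Agent.H81.GT
open Pool.Agent.H83.G (Z TF Rg Cls pl Lo Bp TP wt sR)
open Pool.Agent.H83.FD (VX EnX)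
open Pool.Agent.H18.G.WM (sh cs continuous_sh)

/-- a shifted point of a box -/
theorem shift_box {n : ℕ} {R s r : ℝ} {η x : EE n} {z₀ z' : Z n} {u : ℝ × EE n} (hR : 1 ≤ R)
    (hs : sR R ≤ s) (hr : R * s ^ 2 ≤ r) (hx : ‖x - η‖ ≤ s)
    (hz : z' + sh x (sR R) u ∈ VX η s r R z₀) :
    z' ∈ BX ((1 + 2 * ‖u‖) * r) ((1 + 2 * ‖u‖) * (R * s)) η z₀ := by
  obtain ⟨hσ0, hσ1, hσi, hh1, hh2, hRσ⟩ := sR_facts hR
  have hR0 : 0 < R := by linarith
  have hs0 : 0 < s := by linarith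
  set h : ℝ := Real.sqrt R with hh
  have hh0 : 0 < h := by linarith
  have hhs : 1 ≤ h * s := by
    have h1 : (sR R) * h ≤ s * h := by gcongr
    have e : sR R * h = 1 := by
      rw [← hσi]
      exact mul_inv_cancel₀ hσ0.ne'
    linarith [mul_comm s h]
  have hRs2 : h * s ≤ R * s ^ 2 := by
    have e : R * s ^ 2 = (h * s) * (h * s) := by rw [← hh2]; ring
    rw [e]
    nlinarith
  have hRs : h ≤ R * s := by
    have e : R * s = h * (h * s) := by rw [← hh2]; ring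
    rw [e]
    nlinarith
  have hu0 := norm_nonneg u
  have hu1 : |u.1| ≤ ‖u‖ := norm_fst_le u
  have hu2 : ‖u.2‖ ≤ ‖u‖ := norm_snd_le u
  obtain ⟨hz1, hz2⟩ := hz
  have hz1' : |Qz (z' + sh x (sR R) u - z₀) η| ≤ r := hz1
  have hz2' : ‖Yz (z' + sh x (sR R) u - z₀) η‖ ≤ R * s := by
    have h1 : ‖s • Yz (z' + sh x (sR R) u - z₀) η‖ ≤ R * s ^ 2 := (norm_fst_le _).trans hz2
    rw [norm_smul, Real.norm_of_nonneg hs0.le] at h1
    have h2 : s * ‖Yz (z' + sh x (sR R) u - z₀) η‖ ≤ s * (R * s) := by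
      calc _ ≤ R * s ^ 2 := h1
        _ = _ := by ring
    exact le_of_mul_le_mul_left h2 hs0
  have e1 : z' + sh x (sR R) u - z₀ = (z' - z₀) + sh x (sR R) u := by abel
  rw [e1, Qz_add] at hz1'
  rw [e1, Yz_add] at hz2'
  have hQ : |Qz (sh x (sR R) u) η| ≤ 2 * ‖u‖ * r := by
    have e2 : Qz (sh x (sR R) u) η = u.1 + h * ⟪u.2, η - x⟫ := by
      unfold Qz sh
      simp only
      rw [real_inner_smul_left, hσi, inner_sub_right]
      ring
    rw [e2]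
    have h1 : |⟪u.2, η - x⟫| ≤ ‖u.2‖ * ‖η - x‖ := abs_real_inner_le_norm _ _
    have h2 : ‖u.2‖ * ‖η - x‖ ≤ ‖u‖ * s := by
      rw [norm_sub_rev]
      gcongr
    have h3 : |h * ⟪u.2, η - x⟫| ≤ ‖u‖ * r := by
      rw [abs_mul, abs_of_pos hh0]
      calc h * |⟪u.2, η - x⟫| ≤ h * (‖u‖ * s) := by
            gcongr
            exact h1.trans h2
        _ = ‖u‖ * (h * s) := by ring
        _ ≤ ‖u‖ * r := by
            gcongr
            linarith
    have hr1 : 1 ≤ r := by nlinarith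
    refine (abs_add_le _ _).trans ?_
    nlinarith
  have hY : ‖Yz (sh x (sR R) u) η‖ ≤ 2 * ‖u‖ * (R * s) := by
    have e2 : Yz (sh x (sR R) u) η = h • u.2 := by
      unfold Yz sh
      simp only
      rw [hσi, mul_zero, zero_smul, add_zero]
    rw [e2, norm_smul, Real.norm_of_nonneg hh0.le]
    have : h * ‖u.2‖ ≤ (R * s) * ‖u‖ := by gcongr
    have h4 : 0 ≤ (R * s) * ‖u‖ := by positivity
    linarith
  constructor
  · have h1 : |Qz (z' - z₀) η| ≤ |Qz (z' - z₀) η + Qz (sh x (sR R) u) η| +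
        |Qz (sh x (sR R) u) η| := by
      have := abs_sub (Qz (z' - z₀) η + Qz (sh x (sR R) u) η) (Qz (sh x (sR R) u) η)
      rwa [add_sub_cancel_right] at this
    linarith
  · have h1 : ‖Yz (z' - z₀) η‖ ≤ ‖Yz (z' - z₀) η + Yz (sh x (sR R) u) η‖ +
        ‖Yz (sh x (sR R) u) η‖ := by
      have := norm_sub_le (Yz (z' - z₀) η + Yz (sh x (sR R) u) η) (Yz (sh x (sR R) u) η)
      rwa [add_sub_cancel_right] at this
    linarith

theorem VX_meas {n : ℕ} (η : EE n) (s r R : ℝ) (z₀ : Z n) : MeasurableSet (VX η s r R z₀) := by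
  have h0 : Continuous fun z : Z n => Lo η s (z - z₀) := by
    unfold Lo
    fun_prop
  have h1 : Continuous fun z : Z n => |(Lo η s (z - z₀)).1| := (continuous_fst.comp h0).abs
  have h2 : Continuous fun z : Z n => ‖(Lo η s (z - z₀)).2‖ := (continuous_snd.comp h0).norm
  exact ((isClosed_le h1 continuous_const).inter (isClosed_le h2 continuous_const)).measurableSet

/-- translation of a box -/
theorem shift_int {n : ℕ} {V B : Set (Z n)} (hV : MeasurableSet V) (hB : MeasurableSet B)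
    (F : Z n → ℝ≥0∞) (w : Z n) (h : ∀ z, z + w ∈ V → z ∈ B) :
    ∫⁻ z in V, F (z - w) ≤ ∫⁻ z in B, F z := by
  rw [← lintegral_indicator hV, ← lintegral_indicator hB]
  rw [← lintegral_add_right_eq_self (μ := (volume : Measure (Z n)))
    (V.indicator fun z => F (z - w)) w]
  refine lintegral_mono fun z => ?_
  by_cases hz : z + w ∈ V
  · rw [indicator_of_mem hz, indicator_of_mem (h z hz), add_sub_cancel_right]
  · rw [indicator_of_notMem hz]
    exact zero_le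

open Pool.Agent.H88.FD in
/-- DAT -/
theorem pf_DAT (hKER : Pool.Agent.H83.G.T_KER) (hWT2 : Pool.Agent.H83.G.T_WT2)
    (hSCH : Pool.Agent.H83.G.T_SCH) (hCOV : T_COV) (hREP : T_REP) (hACS : T_ACS) (hTAI : T_TAI)
    (hPLE : T_PLE) (hTRQ : T_TRQ) (hQUA : T_QUA) (hKSU : T_KSU) : T_DAT := by
  intro n L κ δ α a X χ hn hL hκ ha hX hδ hα hα1
  obtain ⟨C₁, hC₁, hBx⟩ := boxes hCOV hREP hACS hTAI hPLE hTRQ hQUA hKSU n κ δ α a X χ hn hκ ha
    hX hδ hα
  obtain ⟨C0, hC0⟩ := hKER n L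
  obtain ⟨C2, -, -, hC2⟩ := hWT2 n L (by omega)
  obtain ⟨C3, -, -, hC3⟩ := hWT2 n (L - (n + 1)) (by omega)
  set K : ℝ := (C0 : ℝ) ^ 2 * C2 * (C₁ * 2 ^ (n + 1)) * C3 with hK
  have hK0 : 0 ≤ K := by positivity
  refine ⟨1 + K, by positivity, ?_⟩
  intro R A f hR hA hf hF I φ η s r z₀ hφ hI hIs hs hs1 hr hrR
  obtain ⟨hσ0, hσ1, hσi, hh1, hh2, hRσ⟩ := sR_facts hR
  have hR0 : 0 < R := by linarith
  have hs0 : 0 < s := by linarith
  have hr0 : 0 < r := lt_of_lt_of_le (by positivity) hr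
  set M₀ : ℝ := A ^ 2 * (R * (R * s) ^ n * min (R ^ (α - n)) (r ^ (α - n))) with hM₀
  have hmin0 : 0 ≤ min (R ^ (α - n)) (r ^ (α - n)) := le_min (by positivity) (by positivity)
  have hM₀0 : 0 ≤ M₀ := by positivity
  set Gx : EE n → Z n → ℂ := fun x => Gf X R (ac a x (sR R)) f with hGx
  have hTC : ∀ x, Pool.Agent.H83.G.TC (Gx x) ∧ (∀ ζ, Gx x ζ ≠ 0 → 1 / 4 ≤ ζ.1 ∧ ζ.1 ≤ 8) := by
    intro x
    obtain ⟨h1, h2, -⟩ := hREP n κ R A (ac a x (sR R)) f X χ hκ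
      (hACS n κ (sR R) x a hκ ha hσ0).1 hX hR hf
    refine ⟨h1, fun ζ hζ => ?_⟩
    obtain ⟨h4, h5, -, -⟩ := h2 ζ hζ
    constructor <;> linarith
  have hcont : ∀ x, Continuous (TF (Gx x)) := fun x => (hSCH n (Gx x) (hTC x).1).1
  have hTP : ∀ x ∈ I, TP (φ x) x (sR R) (Gf X R a f) = TP (φ x) x (sR R) (Gx x) := by
    intro x hx
    funext z
    unfold TP
    congr 1
    funext ζ
    exact cls_eq hκ ha hX hR hσ0 hRσ (hφ x hx) x ζ
  set V : Set (Z n) := VX η s r R z₀ with hV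
  have hVm : MeasurableSet V := VX_meas _ _ _ _ _
  set w : ℝ × EE n → ℝ≥0∞ := fun u => ENNReal.ofReal (((1 + ‖u‖) ^ L)⁻¹) with hw
  have hwm : Measurable w := by
    rw [hw]
    fun_prop
  set Ix : EE n → ℝ × EE n → ℝ≥0∞ := fun x u =>
    ∫⁻ z in V, ‖TF (Gx x) (z - sh x (sR R) u)‖ₑ ^ 2 with hIx
  have hjm : ∀ x, Measurable fun p : Z n × (ℝ × EE n) =>
      ‖TF (Gx x) (p.1 - sh x (sR R) p.2)‖ₑ ^ 2 := by
    intro x
    have h1 : Continuous fun p : Z n × (ℝ × EE n) => TF (Gx x) (p.1 - sh x (sR R) p.2) :=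
      (hcont x).comp (continuous_fst.sub ((continuous_sh x (sR R)).comp continuous_snd))
    exact h1.enorm.measurable.pow_const 2
  have hIxm : ∀ x, Measurable (Ix x) := by
    intro x
    exact (hjm x).lintegral_prod_left' (μ := (volume : Measure (Z n)).restrict V)
  -- one piece
  have step : ∀ x ∈ I, ∫⁻ z in V, ‖TP (φ x) x (sR R) (Gf X R a f) z‖ₑ ^ 2 ≤
      (C0 : ℝ≥0∞) ^ 2 * C2 * ∫⁻ u, w u * Ix x u := by
    intro x hx
    rw [hTP x hx]
    have h1 : ∀ z, ‖TP (φ x) x (sR R) (Gx x) z‖ₑ ^ 2 ≤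
        (C0 : ℝ≥0∞) ^ 2 * C2 * ∫⁻ u, w u * ‖TF (Gx x) (z - sh x (sR R) u)‖ₑ ^ 2 := by
      intro z
      have h3 := hC0 (φ x) (hφ x hx) x (sR R) (Gx x) hσ0 (hTC x).1 (hTC x).2 z
      have h4 := pow_le_pow_left' h3 2
      rw [mul_pow] at h4
      refine h4.trans ?_
      rw [mul_assoc]
      refine mul_le_mul' le_rfl ?_
      have hm : Measurable fun u : ℝ × EE n => ‖TF (Gx x) (z - sh x (sR R) u)‖ₑ :=
        ((hcont x).comp (continuous_const.sub (continuous_sh x (sR R)))).measurable.enorm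
      refine (cs volume hwm hm).trans ?_
      exact mul_le_mul' hC2 le_rfl
    calc ∫⁻ z in V, ‖TP (φ x) x (sR R) (Gx x) z‖ₑ ^ 2
        ≤ ∫⁻ z in V, (C0 : ℝ≥0∞) ^ 2 * C2 *
            ∫⁻ u, w u * ‖TF (Gx x) (z - sh x (sR R) u)‖ₑ ^ 2 := lintegral_mono fun z => h1 z
      _ = (C0 : ℝ≥0∞) ^ 2 * C2 * ∫⁻ z in V, ∫⁻ u, w u *
            ‖TF (Gx x) (z - sh x (sR R) u)‖ₑ ^ 2 := by
          rw [lintegral_const_mul' _ _ (by finiteness)]
      _ = (C0 : ℝ≥0∞) ^ 2 * C2 * ∫⁻ u, ∫⁻ z in V, w u *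
            ‖TF (Gx x) (z - sh x (sR R) u)‖ₑ ^ 2 := by
          congr 1
          apply lintegral_lintegral_swap
          exact ((hwm.comp measurable_snd).mul (hjm x)).aemeasurable
      _ = _ := by
          congr 1
          refine lintegral_congr fun u => ?_
          simp only [hIx]
          rw [lintegral_const_mul' _ _ (by simp only [hw]; exact ENNReal.ofReal_ne_top)]
  refine (Finset.sum_le_sum step).trans ?_
  have hsw : ∑ x ∈ I, ∫⁻ u, w u * Ix x u = ∫⁻ u, ∑ x ∈ I, w u * Ix x u := by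
    symm
    exact lintegral_finsetSum I (fun x _ => hwm.mul (hIxm x))
  rw [← Finset.mul_sum, hsw]
  have h5 : ∀ u : ℝ × EE n, ∑ x ∈ I, w u * Ix x u ≤
      ENNReal.ofReal (C₁ * 2 ^ (n + 1) * (R ^ δ * M₀)) *
        ENNReal.ofReal (((1 + ‖u‖) ^ (L - (n + 1)))⁻¹) := by
    intro u
    rw [← Finset.mul_sum]
    have hu0 := norm_nonneg u
    have h6 : ∑ x ∈ I, Ix x u ≤ ∑ x ∈ I, ∫⁻ z in BX ((1 + 2 * ‖u‖) * r)
        ((1 + 2 * ‖u‖) * (R * s)) η z₀, ‖TF (Gx x) z‖ₑ ^ 2 := by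
      refine Finset.sum_le_sum fun x hx => ?_
      exact shift_int hVm (BX_meas _ _ _ _) (fun z => ‖TF (Gx x) z‖ₑ ^ 2) (sh x (sR R) u)
        fun z hz => shift_box hR hs hr (hIs x hx) hz
    have h7 := hBx R A s r (1 + 2 * ‖u‖) η z₀ f I hR hA hf hF hs hs1 hr hrR (by linarith) hIs hI
    refine (mul_le_mul' le_rfl (h6.trans h7)).trans ?_
    simp only [hw]
    rw [← ENNReal.ofReal_mul (by positivity), ← ENNReal.ofReal_mul (by positivity)]
    apply ENNReal.ofReal_le_ofReal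
    have h8 : (1 + 2 * ‖u‖) ^ (n + 1) ≤ 2 ^ (n + 1) * (1 + ‖u‖) ^ (n + 1) := by
      rw [← mul_pow]
      gcongr
      linarith
    have e1 : (1 + ‖u‖) ^ L = (1 + ‖u‖) ^ (L - (n + 1)) * (1 + ‖u‖) ^ (n + 1) := by
      rw [← pow_add]
      congr 1
      omega
    calc ((1 + ‖u‖) ^ L)⁻¹ * (C₁ * (R ^ δ * (1 + 2 * ‖u‖) ^ (n + 1) * M₀))
        ≤ ((1 + ‖u‖) ^ L)⁻¹ * (C₁ * (R ^ δ * (2 ^ (n + 1) * (1 + ‖u‖) ^ (n + 1)) * M₀)) := by
          gcongr
      _ = _ := by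
          rw [e1]
          have : (0 : ℝ) < 1 + ‖u‖ := by linarith
          field_simp
  calc (C0 : ℝ≥0∞) ^ 2 * C2 * ∫⁻ u, ∑ x ∈ I, w u * Ix x u
      ≤ (C0 : ℝ≥0∞) ^ 2 * C2 * ∫⁻ u : ℝ × EE n, ENNReal.ofReal (C₁ * 2 ^ (n + 1) * (R ^ δ * M₀)) *
        ENNReal.ofReal (((1 + ‖u‖) ^ (L - (n + 1)))⁻¹) := by
        gcongr with u
        exact h5 u
    _ ≤ (C0 : ℝ≥0∞) ^ 2 * C2 * (ENNReal.ofReal (C₁ * 2 ^ (n + 1) * (R ^ δ * M₀)) * C3) := by
        rw [lintegral_const_mul' _ _ ENNReal.ofReal_ne_top]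
        gcongr
    _ = ENNReal.ofReal (K * (R ^ δ * M₀)) := by
        rw [hK, ← ENNReal.ofReal_coe_nnreal, ← ENNReal.ofReal_coe_nnreal,
          ← ENNReal.ofReal_coe_nnreal, ← ENNReal.ofReal_pow (by positivity),
          ← ENNReal.ofReal_mul (by positivity), ← ENNReal.ofReal_mul (by positivity),
          ← ENNReal.ofReal_mul (by positivity)]
        congr 1
        ring
    _ ≤ ENNReal.ofReal (((1 + K) * R ^ δ * A) ^ 2 *
          (R * (R * s) ^ n * min (R ^ (α - n)) (r ^ (α - n)))) := by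
        apply ENNReal.ofReal_le_ofReal
        have hRδ : 1 ≤ R ^ δ := Real.one_le_rpow hR hδ.le
        rw [hM₀]
        calc K * (R ^ δ * (A ^ 2 * (R * (R * s) ^ n * min (R ^ (α - n)) (r ^ (α - n)))))
            = (K * R ^ δ) * (A ^ 2 * (R * (R * s) ^ n * min (R ^ (α - n)) (r ^ (α - n)))) := by
              ring
          _ ≤ ((1 + K) ^ 2 * (R ^ δ) ^ 2) *
              (A ^ 2 * (R * (R * s) ^ n * min (R ^ (α - n)) (r ^ (α - n)))) := by
              gcongr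
              · nlinarith
              · nlinarith
          _ = _ := by ring

end Pool.Agent.H86.FD
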