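import Pool.Agent.H86.FD.Data
import Pool.Agent.H82.FD.QUA
import Pool.Agent.H94.FD.KSU
import Pool.Agent.H83.G.Chain
import Pool.Agent.H81.GT.All

/-!
MP_ee74d2_an, theorem FD: the data layer, assembled.
-/

set_option autoImplicit false

namespace Pool.Agent.H86.FD

open Pool.Agent.H81.GT

/-- the wave belongs to the class `EnX` -/
theorem dat : Pool.Agent.H88.FD.T_DAT := by
  have hACS : T_ACS := Pool.Agent.H34.G.ACS.pf_ACS
  have hCOV : T_COV := Pool.Agent.H56.G.COV.pf_COV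
  have hSUB : T_SUB := Pool.Agent.H70.G.SUB.pf_SUB
  have hPIE : T_PIE := Pool.Agent.H35.G.PIE.pf_PIE hSUB Pool.Agent.H83.LS.Chain.kbv hACS
  have hPKB : T_PKB := Pool.Agent.H33.G.pf_PKB hPIE hACS
  have hPOW : T_POW := Pool.Agent.H59.G.pf_POW
  have hREP : T_REP := Pool.Agent.H33.G.pf_REP hCOV
  have hTAI : T_TAI := Pool.Agent.H49.G.TAI.pf_TAI hPKB hPOW
  have hPLE := Pool.Agent.H83.LS.Chain.ple
  exact pf_DAT Pool.Agent.H83.G.Chain.m_KER Pool.Agent.H83.G.Chain.m_WT2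
    Pool.Agent.H83.G.Chain.m_SCH hCOV hREP hACS hTAI hPLE (pf_TRQ hPOW)
    Pool.Agent.H82.FD.pf_QUA
    (Pool.Agent.H94.FD.KSU.pf_KSU hPKB hPOW hPLE hACS hCOV)

end Pool.Agent.H86.FD
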