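import Pool.Agent.H86.FD.Tar

/-!
MP_ee74d2_an, theorem FD, data layer: mass of a box.
-/

set_option autoImplicit false

namespace Pool.Agent.H86.FD

open MeasureTheory Set FourierTransform
open scoped ENNReal NNReal RealInnerProductSpace
open Pool.Agent.H83.LS
open Pool.Agent.H81.GT
open Pool.Agent.H83.G (Z TF Rg Cls pl Lo Bp TP wt sR)
open Pool.Agent.H54.LS (jo_last pr_jo jo_pr jo_norm_sq mp_jo continuous_pr)

/-- mass of a set from the masses of balls -/
theorem mass_le {d : ℕ} (g : EE d → ℝ≥0∞) (hg : Measurable g) (E E' : Set (EE d))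
    (hE : MeasurableSet E) (hE' : MeasurableSet E') (ρ : ℝ) (B : ℝ≥0∞)
    (hB : ∀ x, ∫⁻ y in Metric.ball x ρ, g y ≤ B)
    (hEE : ∀ y ∈ E, ∀ x, ‖x - y‖ < ρ → x ∈ E') :
    volume (Metric.ball (0 : EE d) ρ) * ∫⁻ x in E, g x ≤ B * volume E' := by
  rw [← lintegral_indicator hE, ← avg_ball ρ (E.indicator g) (hg.indicator hE)]
  calc ∫⁻ x₀, ∫⁻ x in Metric.ball x₀ ρ, E.indicator g x
      ≤ ∫⁻ x₀, E'.indicator (fun _ => B) x₀ := by
        refine lintegral_mono fun x₀ => ?_
        by_cases hx : x₀ ∈ E'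
        · rw [indicator_of_mem hx]
          refine le_trans (lintegral_mono fun x => ?_) (hB x₀)
          exact indicator_le_self _ _ x
        · rw [indicator_of_notMem hx]
          refine le_of_eq ?_
          rw [← lintegral_indicator Metric.isOpen_ball.measurableSet]
          rw [lintegral_eq_zero_iff
            ((hg.indicator hE).indicator Metric.isOpen_ball.measurableSet)]
          refine Filter.Eventually.of_forall fun x => ?_
          show (Metric.ball x₀ ρ).indicator (E.indicator g) x = 0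
          by_cases h1 : x ∈ Metric.ball x₀ ρ
          · rw [indicator_of_mem h1]
            apply indicator_of_notMem
            intro h2
            apply hx
            apply hEE x h2
            rw [← dist_eq_norm, dist_comm]
            exact h1
          · rw [indicator_of_notMem h1]
    _ = B * volume E' := by
        rw [lintegral_indicator hE', setLIntegral_const]

/-- the last coordinate -/
theorem abs_last_le {n : ℕ} (x : EE (n + 1)) : |x (Fin.last n)| ≤ ‖x‖ := by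
  have h := jo_norm_sq (pr x) (x (Fin.last n))
  rw [jo_pr] at h
  apply abs_le_of_sq_le_sq _ (norm_nonneg _)
  nlinarith [sq_nonneg ‖pr x‖]

theorem norm_pr_le {n : ℕ} (x : EE (n + 1)) : ‖pr x‖ ≤ ‖x‖ := by
  have h := jo_norm_sq (pr x) (x (Fin.last n))
  rw [jo_pr] at h
  apply le_of_sq_le_sq _ (norm_nonneg _)
  nlinarith [sq_nonneg (x (Fin.last n))]

theorem Qz_add {n : ℕ} (z z' : Z n) (η : EE n) : Qz (z + z') η = Qz z η + Qz z' η := by
  unfold Qz
  simp only [Prod.fst_add, Prod.snd_add]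
  rw [inner_add_left]
  ring

theorem Yz_add {n : ℕ} (z z' : Z n) (η : EE n) : Yz (z + z') η = Yz z η + Yz z' η := by
  unfold Yz
  simp only [Prod.fst_add, Prod.snd_add]
  rw [mul_add, add_smul]
  abel

/-- neighbourhood of a box at the time `0` -/
theorem bx_nb {n : ℕ} {D M ρ : ℝ} {η : EE n} {z₁ : Z n} (hη : ‖η‖ ≤ 5) (hρ : 0 < ρ) (hD : ρ ≤ D)
    (hM : ρ ≤ M) {y x : EE (n + 1)} (hy : y ∈ bx 0 D M η z₁) (hx : ‖x - y‖ < ρ) :
    x ∈ bx 0 (19 * D) (7 * M) η z₁ := by
  have e1 : zt x 0 - z₁ = (zt y 0 - z₁) + zt (x - y) 0 := by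
    have := zt_sub x y 0 0
    rw [sub_zero] at this
    rw [← this]
    abel
  obtain ⟨h1, h2⟩ := hy
  have h3 := abs_last_le (x - y)
  have h4 := norm_pr_le (x - y)
  have hη0 := norm_nonneg η
  constructor
  · rw [e1, Qz_add]
    have h5 : |Qz (zt (x - y) 0) η| ≤ 18 * ρ := by
      unfold Qz zt
      simp only
      have h6 : |⟪pr (x - y), η⟫| ≤ ‖pr (x - y)‖ * ‖η‖ := abs_real_inner_le_norm _ _
      have h7 : ‖pr (x - y)‖ * ‖η‖ ≤ ρ * 5 := by gcongr; linarith
      have h8 : |(0 + (x - y) (Fin.last n)) / 2| ≤ ρ / 2 := by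
        rw [zero_add, abs_div, abs_two]
        linarith
      have h9 : |(0 - (x - y) (Fin.last n)) / 2 * ‖η‖ ^ 2| ≤ ρ / 2 * 5 ^ 2 := by
        rw [zero_sub, abs_mul, abs_div, abs_two, abs_neg, abs_of_nonneg (sq_nonneg ‖η‖)]
        gcongr
        linarith
      refine (abs_add_three _ _ _).trans ?_
      linarith
    refine (abs_add_le _ _).trans ?_
    linarith
  · rw [e1, Yz_add]
    have h5 : ‖Yz (zt (x - y) 0) η‖ ≤ 6 * ρ := by
      unfold Yz zt
      simp only
      refine (norm_add_le _ _).trans ?_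
      rw [norm_smul, Real.norm_eq_abs]
      have e2 : 2 * ((0 - (x - y) (Fin.last n)) / 2) = -((x - y) (Fin.last n)) := by ring
      rw [e2, abs_neg]
      have h6 : |(x - y) (Fin.last n)| * ‖η‖ ≤ ρ * 5 := by gcongr; linarith
      linarith
    refine (norm_add_le _ _).trans ?_
    linarith

/-- mass of a box at the time `0` -/
theorem bx_mass (n : ℕ) : ∃ C : ℝ, 0 < C ∧ ∀ (α R A ρ D M : ℝ) (η : EE n) (z₁ : Z n)
    (f : EE (n + 1) → ℂ), 0 < A → Measurable f → Fro n α R A f → 1 ≤ ρ → ρ ≤ R → ρ ≤ D → ρ ≤ M →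
    ‖η‖ ≤ 5 → ∫⁻ y in bx 0 D M η z₁, ‖f y‖ₑ ≤
      ENNReal.ofReal (C * (A * ρ ^ α * (D * M ^ n / ρ ^ (n + 1)))) := by
  obtain ⟨Cv, hCv, hV⟩ := bx_vol n
  set v : ℝ := (volume (Metric.ball (0 : EE (n + 1)) 1)).toReal with hv
  have hv0 : 0 < v := ENNReal.toReal_pos
    ((Metric.measure_ball_pos _ _ one_pos).ne') measure_ball_lt_top.ne
  refine ⟨Cv * 19 * 7 ^ n / v, by positivity, ?_⟩
  intro α R A ρ D M η z₁ f hA hf hF hρ hρR hD hM hη
  have hρ0 : 0 < ρ := by linarith
  have hD0 : 0 < D := by linarith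
  have hM0 : 0 < M := by linarith
  have h1 := mass_le (fun y => ‖f y‖ₑ) hf.enorm (bx 0 D M η z₁) (bx 0 (19 * D) (7 * M) η z₁)
    (bx_meas _ _ _ _ _) (bx_meas _ _ _ _ _) ρ (ENNReal.ofReal (A * ρ ^ α)) (fun x =>
      (lintegral_mono_set Metric.ball_subset_closedBall).trans (hF x ρ hρ hρR))
    (fun y hy x hx => bx_nb hη hρ0 hD hM hy hx)
  have h2 := hV 0 (19 * D) (7 * M) η z₁ (by positivity) (by positivity)
  have h3 : volume (Metric.ball (0 : EE (n + 1)) ρ) = ENNReal.ofReal (ρ ^ (n + 1) * v) := by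
    rw [Measure.addHaar_ball_of_pos _ _ hρ0, finrank_euclideanSpace, Fintype.card_fin,
      ENNReal.ofReal_mul (by positivity), hv, ENNReal.ofReal_toReal measure_ball_lt_top.ne]
  rw [h3] at h1
  have h4 : ENNReal.ofReal (ρ ^ (n + 1) * v) * ∫⁻ y in bx 0 D M η z₁, ‖f y‖ₑ ≤
      ENNReal.ofReal (ρ ^ (n + 1) * v) *
        ENNReal.ofReal (Cv * 19 * 7 ^ n / v * (A * ρ ^ α * (D * M ^ n / ρ ^ (n + 1)))) := by
    refine h1.trans ?_
    refine (mul_le_mul' le_rfl h2).trans (le_of_eq ?_)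
    rw [← ENNReal.ofReal_mul (by positivity), ← ENNReal.ofReal_mul (by positivity)]
    congr 1
    rw [mul_pow]
    field_simp
  exact (ENNReal.mul_le_mul_iff_right (ENNReal.ofReal_pos.2 (by positivity)).ne'
    ENNReal.ofReal_ne_top).1 h4

end Pool.Agent.H86.FD
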