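import Pool.Agent.H86.FD.Trq
import Pool.Agent.H86.FD.Mass

/-!
MP_ee74d2_an, theorem FD, data layer: the contribution of the data in the box.
-/

set_option autoImplicit false

namespace Pool.Agent.H86.FD

open MeasureTheory Set FourierTransform
open scoped ENNReal NNReal RealInnerProductSpace ComplexConjugate
open Pool.Agent.H83.LS
open Pool.Agent.H81.GT
open Pool.Agent.H83.G (Z TF Rg Cls pl Lo Bp TP wt sR)

/-- the square of a symbol -/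
noncomputable def sq {n : ℕ} (a : EE (n + 1) → ℂ) (ξ : EE (n + 1)) : ℂ := a ξ * conj (a ξ)

theorem sq_sym {n : ℕ} {κ : ℝ} {a : EE (n + 1) → ℂ} (ha : SymE n κ a) : SymE n κ (sq a) := by
  refine ⟨?_, fun ξ hξ => ha.2 ξ fun h => hξ ?_⟩
  · unfold sq
    exact ha.1.mul (Complex.conjCLE.contDiff.comp ha.1)
  · unfold sq
    rw [h, zero_mul]

theorem Bu_nonneg {n : ℕ} (x : EE n) : 0 ≤ Bu x := Real.smoothTransition.nonneg _

theorem Bu_le_one {n : ℕ} (x : EE n) : Bu x ≤ 1 := Real.smoothTransition.le_one _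

theorem Bu_one {n : ℕ} (x : EE n) (hx : ‖x‖ ≤ 2) : Bu x = 1 := by
  unfold Bu
  apply Real.smoothTransition.one_of_one_le
  nlinarith [norm_nonneg x]

theorem ac_sq {n : ℕ} (a : EE (n + 1) → ℂ) (η : EE n) (s : ℝ) (ξ : EE (n + 1)) :
    ac (sq a) η s ξ = ((‖a ξ‖ ^ 2 * Bu (s⁻¹ • ((al ξ)⁻¹ • pr ξ - η)) : ℝ) : ℂ) := by
  unfold ac sq
  rw [Complex.mul_conj, Complex.normSq_eq_norm_sq]
  push_cast
  ring

/-- overlap of the caps -/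
theorem ov_card {n : ℕ} (I : Finset (EE n)) {σ : ℝ} (hσ : 0 < σ)
    (hI : ∀ x ∈ I, ∀ y ∈ I, x ≠ y → σ ≤ ((n : ℝ) + 1) * ‖x - y‖) (p : EE n) (J : Finset (EE n))
    (hJ : J ⊆ I) (hp : ∀ x ∈ J, ‖x - p‖ ≤ 3 * σ) : (J.card : ℝ) ≤ (1 + 6 * ((n : ℝ) + 1)) ^ n := by
  have hn : 0 < (n : ℝ) + 1 := by positivity
  have h := pack J (σ / ((n : ℝ) + 1)) (3 * σ) p (by positivity) (by positivity) (by
    intro x hx y hy hxy
    rw [div_le_iff₀ hn, mul_comm]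
    exact hI x (hJ hx) y (hJ hy) hxy) hp
  have e : 1 + 2 * (3 * σ) / (σ / ((n : ℝ) + 1)) = 1 + 6 * ((n : ℝ) + 1) := by
    field_simp
    ring
  rw [e] at h
  exact h

/-- overlap of the symbols -/
theorem ov_sum {n : ℕ} {κ : ℝ} {a : EE (n + 1) → ℂ} (hACS : T_ACS) (hκ : κ ≤ 1 / 8)
    (ha : SymE n κ a) (I : Finset (EE n)) {σ : ℝ} (hσ : 0 < σ)
    (hI : ∀ x ∈ I, ∀ y ∈ I, x ≠ y → σ ≤ ((n : ℝ) + 1) * ‖x - y‖) (ξ : EE (n + 1)) (W : ℝ)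
    (hW : ∀ x ∈ I, ac a x σ ξ ≠ 0 → ‖a ξ‖ ^ 2 ≤ W) :
    ∑ x ∈ I, ‖ac a x σ ξ‖ₑ ^ 2 ≤ ENNReal.ofReal ((1 + 6 * ((n : ℝ) + 1)) ^ n * W) := by
  classical
  set J : Finset (EE n) := I.filter (fun x => ac a x σ ξ ≠ 0) with hJ
  have h1 : ∑ x ∈ I, ‖ac a x σ ξ‖ₑ ^ 2 = ∑ x ∈ J, ‖ac a x σ ξ‖ₑ ^ 2 := by
    symm
    apply Finset.sum_subset (Finset.filter_subset _ _)
    intro x hx hxJ
    have : ac a x σ ξ = 0 := by
      by_contra h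
      exact hxJ (Finset.mem_filter.2 ⟨hx, h⟩)
    rw [this]
    simp
  rw [h1]
  have h2 : ∀ x ∈ J, ‖ac a x σ ξ‖ₑ ^ 2 ≤ ENNReal.ofReal W := by
    intro x hx
    obtain ⟨hx1, hx2⟩ := Finset.mem_filter.1 hx
    rw [← ofReal_norm, ← ENNReal.ofReal_pow (norm_nonneg _)]
    apply ENNReal.ofReal_le_ofReal
    have h3 := (hACS n κ σ x a hκ ha hσ).2.1 ξ
    calc ‖ac a x σ ξ‖ ^ 2 ≤ ‖a ξ‖ ^ 2 := by gcongr
      _ ≤ W := hW x hx1 hx2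
  refine (Finset.sum_le_sum h2).trans ?_
  rw [Finset.sum_const, nsmul_eq_mul, ENNReal.ofReal_mul (by positivity)]
  gcongr
  have h4 := ov_card I hσ hI ((al ξ)⁻¹ • pr ξ) J (Finset.filter_subset _ _) (by
    intro x hx
    rw [norm_sub_rev]
    exact ((hACS n κ σ x a hκ ha hσ).2.2 ξ (Finset.mem_filter.1 hx).2).1)
  rw [← ENNReal.ofReal_natCast]
  exact ENNReal.ofReal_le_ofReal h4

/-- Plancherel for bounded functions with compact support -/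
theorem planch {d : ℕ} {A : ℝ} {g : EE d → ℂ} (hg : BCd A g) :
    ∫⁻ ξ, ‖𝓕 g ξ‖ₑ ^ 2 = ∫⁻ x, ‖g x‖ₑ ^ 2 ∧
      ∫⁻ x, ‖g x‖ₑ ^ 2 ≤ ENNReal.ofReal A * ∫⁻ x, ‖g x‖ₑ := by
  have hi := Pool.Agent.H19.LS.BCd_int A _ hg
  have h1 : ∫⁻ y, ‖g y‖ₑ ^ 2 ≤ ENNReal.ofReal A * ∫⁻ y, ‖g y‖ₑ := by
    rw [← lintegral_const_mul' _ _ ENNReal.ofReal_ne_top]
    refine lintegral_mono fun y => ?_
    simp only
    rw [pow_two]
    have : ‖g y‖ₑ ≤ ENNReal.ofReal A := by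
      rw [← ofReal_norm]
      exact ENNReal.ofReal_le_ofReal (hg.2.1 y)
    gcongr
  have h2 : MemLp g 2 := Pool.Agent.H19.LS.memLp_two_of g hg.1.aestronglyMeasurable
    (h1.trans_lt (ENNReal.mul_lt_top ENNReal.ofReal_lt_top hi.2)).ne
  exact ⟨Pool.Agent.H19.LS.plancherelE g hi h2, h1⟩

theorem ind_lint {d : ℕ} {E : Set (EE d)} (hE : MeasurableSet E) (f : EE d → ℂ) :
    ∫⁻ x, ‖E.indicator f x‖ₑ = ∫⁻ x in E, ‖f x‖ₑ := by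
  rw [← lintegral_indicator hE]
  refine lintegral_congr fun x => ?_
  by_cases hx : x ∈ E
  · rw [indicator_of_mem hx, indicator_of_mem hx]
  · rw [indicator_of_notMem hx, indicator_of_notMem hx, enorm_zero]

/-- sum of the pieces, from the sum of the squares of the symbols -/
theorem sum_pieces {n : ℕ} {κ : ℝ} {a : EE (n + 1) → ℂ} (hACS : T_ACS) (hQUA : T_QUA)
    (hκ : κ ≤ 1 / 8) (ha : SymE n κ a) (I : Finset (EE n)) {σ : ℝ} (hσ : 0 < σ) {A : ℝ}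
    {g : EE (n + 1) → ℂ} (hg : BCd A g) (t : ℝ) :
    ∑ x ∈ I, ∫⁻ y, ‖Ua (ac a x σ) t g y‖ₑ ^ 2 =
      ∫⁻ ξ, (∑ x ∈ I, ‖ac a x σ ξ‖ₑ ^ 2) * ‖𝓕 g ξ‖ₑ ^ 2 := by
  have hgc : Continuous (𝓕 g) :=
    Pool.Agent.H19.LS.fourier_cont _ (Pool.Agent.H19.LS.BCd_int A _ hg)
  have h1 : ∀ x ∈ I, ∫⁻ y, ‖Ua (ac a x σ) t g y‖ₑ ^ 2 =
      ∫⁻ ξ, ‖ac a x σ ξ‖ₑ ^ 2 * ‖𝓕 g ξ‖ₑ ^ 2 := fun x _ =>
    (hQUA n κ A _ g (hACS n κ σ x a hκ ha hσ).1 hg).1 t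
  rw [Finset.sum_congr rfl h1, ← lintegral_finsetSum]
  · refine lintegral_congr fun ξ => ?_
    rw [Finset.sum_mul]
  · intro x _
    have h2 := (hACS n κ σ x a hκ ha hσ).1.1.continuous
    exact (h2.enorm.measurable.pow_const 2).mul (hgc.enorm.measurable.pow_const 2)

/-- case `α > n` -/
theorem main_B {n : ℕ} {κ : ℝ} {a : EE (n + 1) → ℂ} (hACS : T_ACS) (hQUA : T_QUA)
    (hκ : κ ≤ 1 / 8) (ha : SymE n κ a) (I : Finset (EE n)) {σ : ℝ} (hσ : 0 < σ)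
    (hI : ∀ x ∈ I, ∀ y ∈ I, x ≠ y → σ ≤ ((n : ℝ) + 1) * ‖x - y‖) {Ma : ℝ}
    (hMa : ∀ ξ, ‖a ξ‖ ≤ Ma) {A : ℝ}
    {f : EE (n + 1) → ℂ} {E : Set (EE (n + 1))} (hE : MeasurableSet E)
    (hg : BCd A (E.indicator f)) (t : ℝ) :
    ∑ x ∈ I, ∫⁻ y, ‖Ua (ac a x σ) t (E.indicator f) y‖ₑ ^ 2 ≤
      ENNReal.ofReal ((1 + 6 * ((n : ℝ) + 1)) ^ n * Ma ^ 2 * A) * ∫⁻ x in E, ‖f x‖ₑ := by
  rw [sum_pieces hACS hQUA hκ ha I hσ hg t]
  have h1 : ∀ ξ, (∑ x ∈ I, ‖ac a x σ ξ‖ₑ ^ 2) ≤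
      ENNReal.ofReal ((1 + 6 * ((n : ℝ) + 1)) ^ n * Ma ^ 2) := by
    intro ξ
    refine ov_sum hACS hκ ha I hσ hI ξ (Ma ^ 2) fun x _ _ => ?_
    have := hMa ξ
    gcongr
  obtain ⟨h2, h3⟩ := planch hg
  calc ∫⁻ ξ, (∑ x ∈ I, ‖ac a x σ ξ‖ₑ ^ 2) * ‖𝓕 (E.indicator f) ξ‖ₑ ^ 2
      ≤ ∫⁻ ξ, ENNReal.ofReal ((1 + 6 * ((n : ℝ) + 1)) ^ n * Ma ^ 2) *
          ‖𝓕 (E.indicator f) ξ‖ₑ ^ 2 := by
        refine lintegral_mono fun ξ => ?_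
        exact mul_le_mul' (h1 ξ) le_rfl
    _ = ENNReal.ofReal ((1 + 6 * ((n : ℝ) + 1)) ^ n * Ma ^ 2) *
          ∫⁻ x, ‖E.indicator f x‖ₑ ^ 2 := by
        rw [lintegral_const_mul' _ _ ENNReal.ofReal_ne_top, h2]
    _ ≤ ENNReal.ofReal ((1 + 6 * ((n : ℝ) + 1)) ^ n * Ma ^ 2) *
          (ENNReal.ofReal A * ∫⁻ x, ‖E.indicator f x‖ₑ) := by gcongr
    _ = _ := by
        rw [ind_lint hE, ← mul_assoc, ← ENNReal.ofReal_mul (by positivity)]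

/-- case `α ≤ n` -/
theorem main_A {n : ℕ} {κ : ℝ} {a : EE (n + 1) → ℂ} (hACS : T_ACS) (hQUA : T_QUA)
    (hκ : κ ≤ 1 / 8) (ha : SymE n κ a) (I : Finset (EE n)) {σ : ℝ} (hσ : 0 < σ)
    (hI : ∀ x ∈ I, ∀ y ∈ I, x ≠ y → σ ≤ ((n : ℝ) + 1) * ‖x - y‖) {A : ℝ}
    {f : EE (n + 1) → ℂ} {E : Set (EE (n + 1))} (hE : MeasurableSet E)
    (hg : BCd A (E.indicator f)) (t : ℝ) (η' : EE n) (s' B : ℝ) (hs' : 0 < s')
    (hcap : ∀ x ∈ I, ∀ ξ, ac a x σ ξ ≠ 0 → Bu (s'⁻¹ • ((al ξ)⁻¹ • pr ξ - η')) = 1)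
    (hB : ∀ x, ‖Ua (ac (sq a) η' s') 0 (E.indicator f) x‖ₑ ≤ ENNReal.ofReal B) :
    ∑ x ∈ I, ∫⁻ y, ‖Ua (ac a x σ) t (E.indicator f) y‖ₑ ^ 2 ≤
      ENNReal.ofReal ((1 + 6 * ((n : ℝ) + 1)) ^ n * B) * ∫⁻ x in E, ‖f x‖ₑ := by
  rw [sum_pieces hACS hQUA hκ ha I hσ hg t]
  set r : EE (n + 1) → ℝ := fun ξ => ‖a ξ‖ ^ 2 * Bu (s'⁻¹ • ((al ξ)⁻¹ • pr ξ - η')) with hr
  have hr0 : ∀ ξ, 0 ≤ r ξ := fun ξ => mul_nonneg (sq_nonneg _) (Bu_nonneg _)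
  have h1 : ∀ ξ, (∑ x ∈ I, ‖ac a x σ ξ‖ₑ ^ 2) ≤
      ENNReal.ofReal ((1 + 6 * ((n : ℝ) + 1)) ^ n * r ξ) := by
    intro ξ
    refine ov_sum hACS hκ ha I hσ hI ξ (r ξ) fun x hx h => ?_
    simp only [hr]
    rw [hcap x hx ξ h, mul_one]
  have hb := (hACS n κ s' η' (sq a) hκ (sq_sym ha) hs').1
  have h2 := (hQUA n κ A _ _ hb hg).2 r (fun ξ => ⟨hr0 ξ, ac_sq a η' s' ξ⟩)
  have hN : (0 : ℝ) ≤ (1 + 6 * ((n : ℝ) + 1)) ^ n := by positivity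
  calc ∫⁻ ξ, (∑ x ∈ I, ‖ac a x σ ξ‖ₑ ^ 2) * ‖𝓕 (E.indicator f) ξ‖ₑ ^ 2
      ≤ ∫⁻ ξ, ENNReal.ofReal ((1 + 6 * ((n : ℝ) + 1)) ^ n) * (ENNReal.ofReal (r ξ) *
          ‖𝓕 (E.indicator f) ξ‖ₑ ^ 2) := by
        refine lintegral_mono fun ξ => ?_
        simp only
        rw [← mul_assoc, ← ENNReal.ofReal_mul hN]
        exact mul_le_mul' (h1 ξ) le_rfl
    _ = ENNReal.ofReal ((1 + 6 * ((n : ℝ) + 1)) ^ n) * ∫⁻ ξ, ENNReal.ofReal (r ξ) *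
          ‖𝓕 (E.indicator f) ξ‖ₑ ^ 2 := lintegral_const_mul' _ _ ENNReal.ofReal_ne_top
    _ ≤ ENNReal.ofReal ((1 + 6 * ((n : ℝ) + 1)) ^ n) * ∫⁻ x, ‖E.indicator f x‖ₑ *
          ‖Ua (ac (sq a) η' s') 0 (E.indicator f) x‖ₑ := by gcongr
    _ ≤ ENNReal.ofReal ((1 + 6 * ((n : ℝ) + 1)) ^ n) * ∫⁻ x, ‖E.indicator f x‖ₑ *
          ENNReal.ofReal B := by
        gcongr with x
        exact hB x
    _ = _ := by
        rw [lintegral_mul_const' _ _ ENNReal.ofReal_ne_top, ind_lint hE,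
          ENNReal.ofReal_mul hN]
        ring

/-- a cap which contains all the small caps -/
theorem big_cap {n : ℕ} {κ : ℝ} {a : EE (n + 1) → ℂ} (hACS : T_ACS) (hκ : κ ≤ 1 / 8)
    (ha : SymE n κ a) (I : Finset (EE n)) {σ s : ℝ} (hσ : 0 < σ) (hσs : σ ≤ s) (hs1 : s ≤ 1)
    (η : EE n) (hI : ∀ x ∈ I, ‖x - η‖ ≤ s) :
    ∃ (η' : EE n) (s' : ℝ), s ≤ s' ∧ s' ≤ 1 ∧ s' ≤ 2 * s ∧
      ∀ x ∈ I, ∀ ξ, ac a x σ ξ ≠ 0 → Bu (s'⁻¹ • ((al ξ)⁻¹ • pr ξ - η')) = 1 := by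
  have hs0 : 0 < s := by linarith
  rcases le_total s (1 / 2) with h | h
  · refine ⟨η, 2 * s, by linarith, by linarith, le_rfl, ?_⟩
    intro x hx ξ hξ
    obtain ⟨h1, h2⟩ := (hACS n κ σ x a hκ ha hσ).2.2 ξ hξ
    apply Bu_one
    rw [norm_smul, norm_inv, Real.norm_of_nonneg (by positivity), inv_mul_le_iff₀ (by positivity)]
    calc ‖(al ξ)⁻¹ • pr ξ - η‖ = ‖((al ξ)⁻¹ • pr ξ - x) + (x - η)‖ := by congr 1; abel
      _ ≤ ‖(al ξ)⁻¹ • pr ξ - x‖ + ‖x - η‖ := norm_add_le _ _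
      _ ≤ 2 * s * 2 := by linarith [hI x hx]
  · refine ⟨0, 1, hs1, le_rfl, by linarith, ?_⟩
    intro x hx ξ hξ
    obtain ⟨h1, h2⟩ := (hACS n κ σ x a hκ ha hσ).2.2 ξ hξ
    apply Bu_one
    rw [sub_zero, inv_one, one_smul]
    linarith

/-- the contribution of the data in the box -/
theorem main_part (hACS : T_ACS) (hQUA : T_QUA) (hKSU : T_KSU) (n : ℕ) (κ δ α : ℝ)
    (a : EE (n + 1) → ℂ) (hn : 1 ≤ n) (hκ : κ ≤ 1 / 8) (ha : SymE n κ a) (hδ : 0 < δ)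
    (hα : 0 < α) : ∃ C : ℝ, 0 < C ∧
    ∀ (R A s r La t : ℝ) (η : EE n) (z₀ : Z n) (f : EE (n + 1) → ℂ) (I : Finset (EE n)),
    1 ≤ R → 0 < A → BCd A f → Fro n α R A f → sR R ≤ s → s ≤ 1 → R * s ^ 2 ≤ r → r ≤ R * s →
    1 ≤ La → ‖η‖ ≤ 5 → (∀ x ∈ I, ‖x - η‖ ≤ s) →
    (∀ x ∈ I, ∀ y ∈ I, x ≠ y → sR R ≤ ((n : ℝ) + 1) * ‖x - y‖) →
    BCd A ((bx 0 (La * r) (La * (R * s)) η z₀).indicator f) →
    ∑ x ∈ I, ∫⁻ y, ‖Ua (ac a x (sR R)) t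
      ((bx 0 (La * r) (La * (R * s)) η z₀).indicator f) y‖ₑ ^ 2 ≤
      ENNReal.ofReal (C * R ^ δ * La ^ (n + 1) *
        (A ^ 2 * ((R * s) ^ n * min (R ^ (α - n)) (r ^ (α - n))))) := by
  obtain ⟨Ma', hMa'⟩ := ha.1.continuous.bounded_above_of_compact_support (SymE.cs ha)
  set Ma : ℝ := |Ma'| + 1 with hMa
  have hMa0 : 0 < Ma := by positivity
  have hMab : ∀ ξ, ‖a ξ‖ ≤ Ma := by
    intro ξ
    have := le_abs_self Ma'
    linarith [hMa' ξ]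
  obtain ⟨Cm, hCm, hM⟩ := bx_mass n
  set N₀ : ℝ := (1 + 6 * ((n : ℝ) + 1)) ^ n with hN₀
  have hN₀0 : 0 < N₀ := by positivity
  rcases le_or_gt α n with hαn | hαn
  · obtain ⟨C₁, hC₁, hK⟩ := hKSU n κ δ α (sq a) hn hκ (sq_sym ha) hδ hα hαn
    refine ⟨N₀ * C₁ * 2 ^ ((n : ℝ) - α) * Cm, by positivity, ?_⟩
    intro R A s r La t η z₀ f I hR hA hf hF hs hs1 hr hrR hLa hη hIs hI hg
    obtain ⟨hσ0, hσ1, hσi, hh1, hh2, hRσ⟩ := sR_facts hR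
    have hR0 : 0 < R := by linarith
    have hs0 : 0 < s := by linarith
    obtain ⟨η', s', h1, h2, h3, h4⟩ := big_cap hACS hκ ha I hσ0 hs hs1 η hIs
    have hs'0 : 0 < s' := by linarith
    set E : Set (EE (n + 1)) := bx 0 (La * r) (La * (R * s)) η z₀ with hE
    have hEm : MeasurableSet E := bx_meas _ _ _ _ _
    have h5 := hK R A s' η' f (E.indicator f) hR hA hf hF hg (fun y => by
      by_cases hy : y ∈ E
      · rw [indicator_of_mem hy]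
      · rw [indicator_of_notMem hy, norm_zero]
        exact norm_nonneg _) (hs.trans h1) h2
    have h6 := main_A hACS hQUA hκ ha I hσ0 hI hEm hg t η' s' _ hs'0 h4 h5
    have hRs1 : 1 ≤ R * s := by
      have : R * sR R ≤ R * s := by gcongr
      linarith
    have hRs0 : 0 < R * s := by positivity
    have hRsR : R * s ≤ R := by nlinarith
    have h7 : ∫⁻ x in E, ‖f x‖ₑ ≤ ENNReal.ofReal (Cm * (A * (R * s) ^ α * La ^ (n + 1))) := by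
      have h8 : E ⊆ bx 0 (La * (R * s)) (La * (R * s)) η z₀ := by
        intro y hy
        exact ⟨hy.1.trans (by gcongr), hy.2⟩
      refine (lintegral_mono_set h8).trans ?_
      refine (hM α R A (R * s) (La * (R * s)) (La * (R * s)) η z₀ f hA hf.1 hF hRs1 hRsR
        (by nlinarith) (by nlinarith) hη).trans (le_of_eq ?_)
      congr 1
      have e : La * (R * s) * (La * (R * s)) ^ n / (R * s) ^ (n + 1) = La ^ (n + 1) := by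
        rw [mul_pow, pow_succ, pow_succ]
        field_simp
      rw [e]
    refine h6.trans ?_
    refine (mul_le_mul' le_rfl h7).trans ?_
    rw [← ENNReal.ofReal_mul (by positivity)]
    apply ENNReal.ofReal_le_ofReal
    have h9 : s' ^ ((n : ℝ) - α) ≤ 2 ^ ((n : ℝ) - α) * s ^ ((n : ℝ) - α) := by
      rw [← Real.mul_rpow (by norm_num) hs0.le]
      exact Real.rpow_le_rpow hs'0.le h3 (by linarith)
    have h10 : s ^ ((n : ℝ) - α) * (R * s) ^ α = (R * s) ^ n * R ^ (α - n) := by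
      rw [Real.mul_rpow hR0.le hs0.le, mul_pow, ← Real.rpow_natCast R n, ← Real.rpow_natCast s n]
      calc s ^ ((n : ℝ) - α) * (R ^ α * s ^ α) = R ^ α * (s ^ ((n : ℝ) - α) * s ^ α) := by ring
        _ = R ^ α * s ^ (n : ℝ) := by
            rw [← Real.rpow_add hs0]
            congr 2
            ring
        _ = (R ^ (n : ℝ) * R ^ (α - n)) * s ^ (n : ℝ) := by
            rw [← Real.rpow_add hR0]
            congr 2
            ring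
        _ = _ := by ring
    have h11 : min (R ^ (α - n)) (r ^ (α - n)) = R ^ (α - n) := by
      apply min_eq_left
      have hr0 : 0 < r := lt_of_lt_of_le (by positivity) hr
      exact Real.rpow_le_rpow_of_nonpos hr0 (hrR.trans hRsR) (by linarith)
    rw [h11]
    calc N₀ * (C₁ * R ^ δ * (A * s' ^ ((n : ℝ) - α))) * (Cm * (A * (R * s) ^ α * La ^ (n + 1)))
        ≤ N₀ * (C₁ * R ^ δ * (A * (2 ^ ((n : ℝ) - α) * s ^ ((n : ℝ) - α)))) *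
            (Cm * (A * (R * s) ^ α * La ^ (n + 1))) := by gcongr
      _ = N₀ * C₁ * 2 ^ ((n : ℝ) - α) * Cm * R ^ δ * La ^ (n + 1) *
            (A ^ 2 * (s ^ ((n : ℝ) - α) * (R * s) ^ α)) := by ring
      _ = _ := by rw [h10]
  · refine ⟨N₀ * Ma ^ 2 * Cm, by positivity, ?_⟩
    intro R A s r La t η z₀ f I hR hA hf hF hs hs1 hr hrR hLa hη hIs hI hg
    obtain ⟨hσ0, hσ1, hσi, hh1, hh2, hRσ⟩ := sR_facts hR
    have hR0 : 0 < R := by linarith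
    have hs0 : 0 < s := by linarith
    set E : Set (EE (n + 1)) := bx 0 (La * r) (La * (R * s)) η z₀ with hE
    have hEm : MeasurableSet E := bx_meas _ _ _ _ _
    have h6 := main_B hACS hQUA hκ ha I hσ0 hI hMab hEm hg t
    have hRs0 : 0 < R * s := by positivity
    have hRsR : R * s ≤ R := by nlinarith
    have hr1 : 1 ≤ r := by
      have h1 : 1 ≤ R * s ^ 2 := by
        calc (1 : ℝ) = R * sR R ^ 2 := by
              unfold sR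
              rw [inv_pow, hh2, mul_inv_cancel₀ hR0.ne']
          _ ≤ R * s ^ 2 := by gcongr
      linarith
    have hr0 : 0 < r := by linarith
    have h7 : ∫⁻ x in E, ‖f x‖ₑ ≤ ENNReal.ofReal (Cm * (A * r ^ (α - n) * (R * s) ^ n *
        La ^ (n + 1))) := by
      refine (hM α R A r (La * r) (La * (R * s)) η z₀ f hA hf.1 hF hr1 (hrR.trans hRsR)
        (by nlinarith) (by nlinarith) hη).trans (le_of_eq ?_)
      congr 1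
      have e1 : r ^ α = r ^ (α - n) * r ^ n := by
        rw [← Real.rpow_natCast, ← Real.rpow_add hr0]
        congr 1
        ring
      rw [e1, mul_pow, pow_succ, pow_succ]
      field_simp
    refine h6.trans ?_
    refine (mul_le_mul' le_rfl h7).trans ?_
    rw [← ENNReal.ofReal_mul (by positivity)]
    apply ENNReal.ofReal_le_ofReal
    have h11 : min (R ^ (α - n)) (r ^ (α - n)) = r ^ (α - n) := by
      apply min_eq_right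
      exact Real.rpow_le_rpow hr0.le (hrR.trans hRsR) (by linarith)
    rw [h11]
    have hRδ : 1 ≤ R ^ δ := Real.one_le_rpow hR hδ.le
    have h12 : 0 ≤ N₀ * Ma ^ 2 * Cm * La ^ (n + 1) * (A ^ 2 * ((R * s) ^ n * r ^ (α - n))) := by
      positivity
    calc N₀ * Ma ^ 2 * A * (Cm * (A * r ^ (α - n) * (R * s) ^ n * La ^ (n + 1)))
        = 1 * (N₀ * Ma ^ 2 * Cm * La ^ (n + 1) * (A ^ 2 * ((R * s) ^ n * r ^ (α - n)))) := by
          ring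
      _ ≤ R ^ δ * (N₀ * Ma ^ 2 * Cm * La ^ (n + 1) *
            (A ^ 2 * ((R * s) ^ n * r ^ (α - n)))) := by gcongr
      _ = _ := by ring

end Pool.Agent.H86.FD
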