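import Pool.Agent.H86.FD.Tail
import Pool.Agent.H86.FD.Main

/-!
MP_ee74d2_an, theorem FD, data layer: one time slice.
-/

set_option autoImplicit false

namespace Pool.Agent.H86.FD

open MeasureTheory Set FourierTransform
open scoped ENNReal NNReal RealInnerProductSpace
open Pool.Agent.H83.LS
open Pool.Agent.H81.GT
open Pool.Agent.H83.G (Z TF Rg Cls pl Lo Bp TP wt sR)

theorem sq_add_le (u v : ℂ) : ‖u + v‖ₑ ^ 2 ≤ 2 * ‖u‖ₑ ^ 2 + 2 * ‖v‖ₑ ^ 2 := by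
  rw [← ofReal_norm, ← ofReal_norm, ← ofReal_norm, ← ENNReal.ofReal_pow (norm_nonneg _),
    ← ENNReal.ofReal_pow (norm_nonneg _), ← ENNReal.ofReal_pow (norm_nonneg _),
    ← ENNReal.ofReal_ofNat 2, ← ENNReal.ofReal_mul (by norm_num),
    ← ENNReal.ofReal_mul (by norm_num), ← ENNReal.ofReal_add (by positivity)
    (by positivity)]
  apply ENNReal.ofReal_le_ofReal
  have := norm_add_le u v
  nlinarith [norm_nonneg (u + v), sq_nonneg (‖u‖ - ‖v‖), norm_nonneg u, norm_nonneg v]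

/-- splitting of one piece -/
theorem split_one (hPLE : T_PLE) {n : ℕ} {κ : ℝ} {b : EE (n + 1) → ℂ} (hb : SymE n κ b) (t : ℝ)
    {A : ℝ} {f : EE (n + 1) → ℂ} (hf : BCd A f) {E P : Set (EE (n + 1))} (hE : MeasurableSet E)
    (hP : MeasurableSet P) (T : ℝ)
    (h : ∀ y ∈ P, ‖Ua b t (Eᶜ.indicator f) y‖ₑ ≤ ENNReal.ofReal T) :
    ∫⁻ y in P, ‖Ua b t f y‖ₑ ^ 2 ≤
      2 * (∫⁻ y, ‖Ua b t (E.indicator f) y‖ₑ ^ 2) + 2 * (ENNReal.ofReal T ^ 2 * volume P) := by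
  obtain ⟨hf1, hf2, hsplit⟩ := Ua_split hPLE hb t hf hE
  have hmeas : Measurable fun y => ‖Ua b t (E.indicator f) y‖ₑ ^ 2 :=
    ((Ua_meas hb (Pool.Agent.H19.LS.BCd_int A _ hf1)).comp
      (continuous_const.prodMk continuous_id)).enorm.measurable.pow_const 2
  have h4 : ∫⁻ y in P, ‖Ua b t (Eᶜ.indicator f) y‖ₑ ^ 2 ≤ ENNReal.ofReal T ^ 2 * volume P := by
    calc ∫⁻ y in P, ‖Ua b t (Eᶜ.indicator f) y‖ₑ ^ 2
        ≤ ∫⁻ _y in P, ENNReal.ofReal T ^ 2 := by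
          refine setLIntegral_mono' hP fun y hy => ?_
          gcongr
          exact h y hy
      _ = ENNReal.ofReal T ^ 2 * volume P := setLIntegral_const _ _
  calc ∫⁻ y in P, ‖Ua b t f y‖ₑ ^ 2
      ≤ ∫⁻ y in P, (2 * ‖Ua b t (E.indicator f) y‖ₑ ^ 2 +
        2 * ‖Ua b t (Eᶜ.indicator f) y‖ₑ ^ 2) := by
        refine lintegral_mono fun y => ?_
        rw [hsplit y]
        exact sq_add_le _ _
    _ = 2 * (∫⁻ y in P, ‖Ua b t (E.indicator f) y‖ₑ ^ 2) +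
        2 * ∫⁻ y in P, ‖Ua b t (Eᶜ.indicator f) y‖ₑ ^ 2 := by
        rw [lintegral_add_left (hmeas.const_mul 2), lintegral_const_mul' _ _ (by norm_num),
          lintegral_const_mul' _ _ (by norm_num)]
    _ ≤ _ := by
        gcongr
        exact Measure.restrict_le_self

/-- numerology of the tail -/
theorem tail_num {n N : ℕ} {R s r lm lam T δ' Ct Cv A ρ α : ℝ} (hR : 1 ≤ R)
    (hs : 0 < s) (hr : 1 ≤ r) (hrR : r ≤ R) (hlm : 1 ≤ lm) (hlam : lam = 1 + T / R) (hT : 0 ≤ T)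
    (hCv : 0 < Cv) (hρ : ρ = R ^ δ' * lam) (hN1 : n + 3 ≤ N)
    (hN2 : (4 * (n : ℝ) + 7) ≤ 2 * N * δ') (hα : 0 < α) {δ : ℝ} (hδ : 0 < δ) :
    ((2 * (n : ℝ) + 3) * R) ^ n * ((A * (Ct * (1 + T + Real.sqrt R) ^ (n + 3) * (ρ ^ N)⁻¹)) ^ 2 *
      (Cv * (lm * r) * (lm * (R * s)) ^ n)) ≤
      ((2 * (n : ℝ) + 3) ^ n * Ct ^ 2 * 3 ^ (2 * n + 6) * Cv) *
        (R ^ δ * lam ^ (3 * n + 3) * lm ^ (n + 1) *
          (A ^ 2 * ((R * s) ^ n * min (R ^ (α - n)) (r ^ (α - n))))) := by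
  have hR0 : 0 < R := by linarith
  have hlam1 : 1 ≤ lam := by
    rw [hlam]
    have : 0 ≤ T / R := by positivity
    linarith
  have hRl : R * lam = R + T := by
    rw [hlam]
    field_simp
  have hlam0 : 0 < lam := by linarith
  have hρ0 : 0 < ρ := by rw [hρ]; positivity
  have hsq : Real.sqrt R ≤ R := by
    rw [Real.sqrt_le_left (by positivity)]
    nlinarith
  have hT0 : 1 + T + Real.sqrt R ≤ 3 * (R * lam) := by nlinarith
  have hTp : 0 ≤ 1 + T + Real.sqrt R := by positivity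
  have hr0 : 0 < r := by linarith
  have hmin : (R ^ n)⁻¹ ≤ min (R ^ (α - n)) (r ^ (α - n)) := by
    have e : (R ^ n)⁻¹ = R ^ (-(n : ℝ)) := by
      rw [Real.rpow_neg hR0.le, Real.rpow_natCast]
    rw [e]
    apply le_min
    · exact Real.rpow_le_rpow_of_exponent_le hR (by linarith)
    · rcases le_total α n with h | h
      · calc R ^ (-(n : ℝ)) ≤ R ^ (α - n) := Real.rpow_le_rpow_of_exponent_le hR (by linarith)
          _ ≤ r ^ (α - n) := Real.rpow_le_rpow_of_nonpos hr0 hrR (by linarith)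
      · calc R ^ (-(n : ℝ)) ≤ 1 := Real.rpow_le_one_of_one_le_of_nonpos hR (by
              have : (0 : ℝ) ≤ n := Nat.cast_nonneg n
              linarith)
          _ ≤ r ^ (α - n) := Real.one_le_rpow hr (by linarith)
  have h3 : ((1 + T + Real.sqrt R) ^ (n + 3) * (ρ ^ N)⁻¹) ^ 2 * (R ^ n * R * R ^ n) ≤
      3 ^ (2 * n + 6) := by
    have e1 : ((1 + T + Real.sqrt R) ^ (n + 3) * (ρ ^ N)⁻¹) ^ 2 =
        (1 + T + Real.sqrt R) ^ (2 * n + 6) / ρ ^ (2 * N) := by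
      rw [mul_pow, ← pow_mul, inv_pow, ← pow_mul, div_eq_mul_inv]
      congr 2 <;> ring
    rw [e1, div_mul_eq_mul_div, div_le_iff₀ (by positivity)]
    have h5 : R ^ (4 * n + 7) * lam ^ (2 * n + 6) ≤ ρ ^ (2 * N) := by
      rw [hρ, mul_pow]
      have h6 : R ^ (4 * n + 7) ≤ (R ^ δ') ^ (2 * N) := by
        rw [← Real.rpow_natCast, ← Real.rpow_natCast, ← Real.rpow_mul hR0.le]
        apply Real.rpow_le_rpow_of_exponent_le hR
        push_cast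
        linarith
      have h7 : lam ^ (2 * n + 6) ≤ lam ^ (2 * N) := pow_le_pow_right₀ hlam1 (by omega)
      gcongr
    calc (1 + T + Real.sqrt R) ^ (2 * n + 6) * (R ^ n * R * R ^ n)
        ≤ (3 * (R * lam)) ^ (2 * n + 6) * (R ^ n * R * R ^ n) := by gcongr
      _ = 3 ^ (2 * n + 6) * (R ^ (4 * n + 7) * lam ^ (2 * n + 6)) := by
          have e5 : R ^ (4 * n + 7) = R ^ (2 * n + 6) * (R ^ n * R * R ^ n) := by ring
          rw [mul_pow, mul_pow, e5]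
          ring
      _ ≤ 3 ^ (2 * n + 6) * ρ ^ (2 * N) := by gcongr
  have h9 : 1 ≤ R ^ δ * lam ^ (3 * n + 3) :=
    one_le_mul_of_one_le_of_one_le (Real.one_le_rpow hR hδ.le) (one_le_pow₀ hlam1)
  have hb0 : 0 ≤ (2 * (n : ℝ) + 3) ^ n * Ct ^ 2 * Cv * lm ^ (n + 1) * (A ^ 2 * (R * s) ^ n) := by
    positivity
  have hq0 : 0 ≤ ((1 + T + Real.sqrt R) ^ (n + 3) * (ρ ^ N)⁻¹) ^ 2 := sq_nonneg _
  have hRn : 0 < R ^ n := by positivity
  calc ((2 * (n : ℝ) + 3) * R) ^ n * ((A * (Ct * (1 + T + Real.sqrt R) ^ (n + 3) *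
        (ρ ^ N)⁻¹)) ^ 2 * (Cv * (lm * r) * (lm * (R * s)) ^ n))
      = ((2 * (n : ℝ) + 3) ^ n * Ct ^ 2 * Cv * lm ^ (n + 1) * (A ^ 2 * (R * s) ^ n)) *
        (((1 + T + Real.sqrt R) ^ (n + 3) * (ρ ^ N)⁻¹) ^ 2 * (R ^ n * r)) := by
        rw [mul_pow (2 * (n : ℝ) + 3) R, mul_pow lm (R * s), pow_succ]
        ring
    _ ≤ ((2 * (n : ℝ) + 3) ^ n * Ct ^ 2 * Cv * lm ^ (n + 1) * (A ^ 2 * (R * s) ^ n)) *
        (((1 + T + Real.sqrt R) ^ (n + 3) * (ρ ^ N)⁻¹) ^ 2 * (R ^ n * R)) := by gcongr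
    _ = ((2 * (n : ℝ) + 3) ^ n * Ct ^ 2 * Cv * lm ^ (n + 1) * (A ^ 2 * (R * s) ^ n)) *
        ((((1 + T + Real.sqrt R) ^ (n + 3) * (ρ ^ N)⁻¹) ^ 2 * (R ^ n * R * R ^ n)) *
          (R ^ n)⁻¹) := by
        field_simp
    _ ≤ ((2 * (n : ℝ) + 3) ^ n * Ct ^ 2 * Cv * lm ^ (n + 1) * (A ^ 2 * (R * s) ^ n)) *
        (3 ^ (2 * n + 6) * min (R ^ (α - n)) (r ^ (α - n))) := by gcongr
    _ = 1 * (((2 * (n : ℝ) + 3) ^ n * Ct ^ 2 * 3 ^ (2 * n + 6) * Cv) * (lm ^ (n + 1) *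
          (A ^ 2 * ((R * s) ^ n * min (R ^ (α - n)) (r ^ (α - n)))))) := by ring
    _ ≤ (R ^ δ * lam ^ (3 * n + 3)) * (((2 * (n : ℝ) + 3) ^ n * Ct ^ 2 * 3 ^ (2 * n + 6) * Cv) *
          (lm ^ (n + 1) * (A ^ 2 * ((R * s) ^ n * min (R ^ (α - n)) (r ^ (α - n)))))) := by
        gcongr
    _ = _ := by ring

/-- one time slice -/
theorem slice (hCOV : T_COV) (hACS : T_ACS) (hTAI : T_TAI) (hPLE : T_PLE) (hTRQ : T_TRQ)
    (hQUA : T_QUA) (hKSU : T_KSU) (n : ℕ) (κ δ α : ℝ) (a : EE (n + 1) → ℂ) (hn : 1 ≤ n)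
    (hκ : κ ≤ 1 / 8) (ha : SymE n κ a) (hδ : 0 < δ) (hα : 0 < α) : ∃ C : ℝ, 0 < C ∧
    ∀ (R A s r lm t : ℝ) (η : EE n) (z₀ : Z n) (f : EE (n + 1) → ℂ) (I : Finset (EE n)),
    1 ≤ R → 0 < A → BCd A f → Fro n α R A f → sR R ≤ s → s ≤ 1 → R * s ^ 2 ≤ r → r ≤ R * s →
    1 ≤ lm → (∀ x ∈ I, ‖x - η‖ ≤ s) →
    (∀ x ∈ I, ∀ y ∈ I, x ≠ y → sR R ≤ ((n : ℝ) + 1) * ‖x - y‖) →
    ∑ x ∈ I, ∫⁻ y in bx t (lm * r) (lm * (R * s)) η z₀, ‖Ua (ac a x (sR R)) t f y‖ₑ ^ 2 ≤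
      ENNReal.ofReal (C * (R ^ δ * (1 + |t| / R) ^ (3 * n + 3) * lm ^ (n + 1) *
        (A ^ 2 * ((R * s) ^ n * min (R ^ (α - n)) (r ^ (α - n)))))) := by
  classical
  have hn0 : 0 < (n : ℝ) + 1 := by positivity
  set δ' : ℝ := δ / (4 * ((n : ℝ) + 1)) with hδ'
  have hδ'0 : 0 < δ' := by positivity
  obtain ⟨N, hN1, hN2⟩ : ∃ N : ℕ, n + 3 ≤ N ∧ 4 * (n : ℝ) + 7 ≤ 2 * N * δ' := by
    obtain ⟨k, hk⟩ := exists_nat_ge ((4 * (n : ℝ) + 7) / (2 * δ'))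
    refine ⟨k + n + 3, by omega, ?_⟩
    rw [div_le_iff₀ (by positivity)] at hk
    push_cast
    nlinarith [mul_nonneg hδ'0.le (Nat.cast_nonneg (α := ℝ) n)]
  obtain ⟨Ct, CE, hCt, hCE, hT⟩ := tail_one hCOV hACS hTAI hPLE hTRQ n N κ a hn hκ ha
  obtain ⟨Cv, hCv, hV⟩ := bx_vol n
  obtain ⟨C₁, hC₁, hM⟩ := main_part hACS hQUA hKSU n κ (δ / 2) α a hn hκ ha (by positivity) hα
  set C₂ : ℝ := (2 * (n : ℝ) + 3) ^ n * Ct ^ 2 * 3 ^ (2 * n + 6) * Cv with hC₂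
  have hC₂0 : 0 < C₂ := by positivity
  refine ⟨2 * (C₁ * CE ^ (n + 1)) + 2 * C₂, by positivity, ?_⟩
  intro R A s r lm t η z₀ f I hR hA hf hF hs hs1 hr hrR hlm hIs hI
  obtain ⟨hσ0, hσ1, hσi, hh1, hh2, hRσ⟩ := sR_facts hR
  have hR0 : 0 < R := by linarith
  have hs0 : 0 < s := by linarith
  set lam : ℝ := 1 + |t| / R with hlam
  have hlam1 : 1 ≤ lam := by
    rw [hlam]
    have : 0 ≤ |t| / R := by positivity
    linarith
  have hRs0 : 0 < R * s := by positivity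
  have hRsR : R * s ≤ R := by nlinarith
  have hr1 : 1 ≤ r := by
    have h1 : 1 ≤ R * s ^ 2 := by
      calc (1 : ℝ) = R * sR R ^ 2 := by
            unfold sR
            rw [inv_pow, hh2, mul_inv_cancel₀ hR0.ne']
        _ ≤ R * s ^ 2 := by gcongr
    linarith
  have hr0 : 0 < r := by linarith
  set m₀ : ℝ := A ^ 2 * ((R * s) ^ n * min (R ^ (α - n)) (r ^ (α - n))) with hm₀
  have hm₀0 : 0 ≤ m₀ := by
    have : 0 ≤ min (R ^ (α - n)) (r ^ (α - n)) := le_min (by positivity) (by positivity)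
    positivity
  -- the caps that matter
  set J : Finset (EE n) := I.filter (fun x => ∃ ξ, ac a x (sR R) ξ ≠ 0) with hJ
  have hJI : J ⊆ I := Finset.filter_subset _ _
  have h1 : ∑ x ∈ I, ∫⁻ y in bx t (lm * r) (lm * (R * s)) η z₀, ‖Ua (ac a x (sR R)) t f y‖ₑ ^ 2 =
      ∑ x ∈ J, ∫⁻ y in bx t (lm * r) (lm * (R * s)) η z₀,
        ‖Ua (ac a x (sR R)) t f y‖ₑ ^ 2 := by
    symm
    apply Finset.sum_subset hJI
    intro x hx hxJ
    have h0 : ∀ ξ, ac a x (sR R) ξ = 0 := by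
      intro ξ
      by_contra h
      exact hxJ (Finset.mem_filter.2 ⟨hx, ξ, h⟩)
    have h2 : ∀ y, Ua (ac a x (sR R)) t f y = 0 := by
      intro y
      unfold Ua MM
      simp [h0]
    simp [h2]
  rw [h1]
  rcases J.eq_empty_or_nonempty with hJe | ⟨x₀, hx₀⟩
  · rw [hJe, Finset.sum_empty]
    exact zero_le
  have hη : ‖η‖ ≤ 5 := by
    obtain ⟨hx₀I, ξ, hξ⟩ := Finset.mem_filter.1 hx₀
    obtain ⟨h2, h3⟩ := (hACS n κ (sR R) x₀ a hκ ha hσ0).2.2 ξ hξ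
    calc ‖η‖ = ‖(al ξ)⁻¹ • pr ξ - ((al ξ)⁻¹ • pr ξ - x₀) - (x₀ - η)‖ := by congr 1; abel
      _ ≤ ‖(al ξ)⁻¹ • pr ξ - ((al ξ)⁻¹ • pr ξ - x₀)‖ + ‖x₀ - η‖ := norm_sub_le _ _
      _ ≤ (‖(al ξ)⁻¹ • pr ξ‖ + ‖(al ξ)⁻¹ • pr ξ - x₀‖) + ‖x₀ - η‖ := by
          gcongr
          exact norm_sub_le _ _
      _ ≤ 5 := by linarith [hIs x₀ hx₀I]
  set ρ : ℝ := R ^ δ' * lam with hρ
  have hρ1 : 1 ≤ ρ := one_le_mul_of_one_le_of_one_le (Real.one_le_rpow hR hδ'0.le) hlam1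
  set La : ℝ := CE * lm * ρ ^ 2 * lam with hLa
  have hLa1 : 1 ≤ La := by
    rw [hLa]
    exact one_le_mul_of_one_le_of_one_le (one_le_mul_of_one_le_of_one_le
      (one_le_mul_of_one_le_of_one_le hCE hlm) (one_le_pow₀ hρ1)) hlam1
  set E : Set (EE (n + 1)) := bx 0 (La * r) (La * (R * s)) η z₀ with hE
  have hEm : MeasurableSet E := bx_meas _ _ _ _ _
  set P : Set (EE (n + 1)) := bx t (lm * r) (lm * (R * s)) η z₀ with hP
  have hPm : MeasurableSet P := bx_meas _ _ _ _ _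
  have hPv : volume P ≤ ENNReal.ofReal (Cv * (lm * r) * (lm * (R * s)) ^ n) :=
    hV t _ _ η z₀ (by positivity) (by positivity)
  set T : ℝ := A * (Ct * (1 + |t| + Real.sqrt R) ^ (n + 3) * (ρ ^ N)⁻¹) with hTd
  have hTd0 : 0 ≤ T := by positivity
  -- pieces
  have h2 : ∀ x ∈ J, ∫⁻ y in P, ‖Ua (ac a x (sR R)) t f y‖ₑ ^ 2 ≤
      2 * (∫⁻ y, ‖Ua (ac a x (sR R)) t (E.indicator f) y‖ₑ ^ 2) +
        2 * ENNReal.ofReal (T ^ 2 * (Cv * (lm * r) * (lm * (R * s)) ^ n)) := by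
    intro x hx
    have hb := (hACS n κ (sR R) x a hκ ha hσ0).1
    have h3 := split_one hPLE hb t hf hEm hPm T (fun y hy =>
      hT R A s r lm t ρ η x z₀ f hR hA hf hs hs1 hr hlm hρ1 (hIs x (hJI hx)) y hy)
    refine h3.trans ?_
    gcongr
    rw [ENNReal.ofReal_mul (sq_nonneg T), ENNReal.ofReal_pow hTd0]
    exact mul_le_mul' le_rfl hPv
  refine (Finset.sum_le_sum h2).trans ?_
  rw [Finset.sum_add_distrib, ← Finset.mul_sum, Finset.sum_const, nsmul_eq_mul]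
  -- main part
  have h4 := hM R A s r La t η z₀ f J hR hA hf hF hs hs1 hr hrR hLa1 hη
    (fun x hx => hIs x (hJI hx)) (fun x hx y hy => hI x (hJI hx) y (hJI hy))
    (Ua_split hPLE ha t hf hEm).1
  -- number of caps
  have h5 : (J.card : ℝ≥0∞) ≤ ENNReal.ofReal (((2 * (n : ℝ) + 3) * R) ^ n) := by
    rw [← ENNReal.ofReal_natCast]
    apply ENNReal.ofReal_le_ofReal
    have h6 := pack J (sR R / ((n : ℝ) + 1)) s η (by positivity) hs0.le (by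
      intro x hx y hy hxy
      rw [div_le_iff₀ hn0, mul_comm]
      exact hI x (hJI hx) y (hJI hy) hxy) (fun x hx => hIs x (hJI hx))
    refine h6.trans ?_
    have e1 : 2 * s / (sR R / ((n : ℝ) + 1)) = 2 * ((n : ℝ) + 1) * s * Real.sqrt R := by
      rw [← hσi]
      field_simp
    rw [e1]
    have hsq : Real.sqrt R ≤ R := by
      calc Real.sqrt R = Real.sqrt R * 1 := (mul_one _).symm
        _ ≤ Real.sqrt R * Real.sqrt R := by gcongr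
        _ = R := by rw [← pow_two, hh2]
    have h7 : s * Real.sqrt R ≤ R := by nlinarith
    have h8 : 1 + 2 * ((n : ℝ) + 1) * s * Real.sqrt R ≤ (2 * (n : ℝ) + 3) * R := by
      nlinarith [mul_le_mul_of_nonneg_left h7 (by positivity : (0 : ℝ) ≤ 2 * ((n : ℝ) + 1))]
    have h9 : 0 ≤ 1 + 2 * ((n : ℝ) + 1) * s * Real.sqrt R := by positivity
    gcongr
  have h6 : (J.card : ℝ≥0∞) * (2 * ENNReal.ofReal (T ^ 2 * (Cv * (lm * r) *
      (lm * (R * s)) ^ n))) ≤ 2 * ENNReal.ofReal (C₂ * (R ^ δ * lam ^ (3 * n + 3) *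
        lm ^ (n + 1) * m₀)) := by
    calc (J.card : ℝ≥0∞) * (2 * ENNReal.ofReal (T ^ 2 * (Cv * (lm * r) * (lm * (R * s)) ^ n)))
        = 2 * ((J.card : ℝ≥0∞) * ENNReal.ofReal (T ^ 2 * (Cv * (lm * r) *
            (lm * (R * s)) ^ n))) := by ring
      _ ≤ 2 * (ENNReal.ofReal (((2 * (n : ℝ) + 3) * R) ^ n) * ENNReal.ofReal (T ^ 2 *
            (Cv * (lm * r) * (lm * (R * s)) ^ n))) := by gcongr
      _ = 2 * ENNReal.ofReal (((2 * (n : ℝ) + 3) * R) ^ n * (T ^ 2 *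
            (Cv * (lm * r) * (lm * (R * s)) ^ n))) := by
          rw [← ENNReal.ofReal_mul (by positivity : (0 : ℝ) ≤ ((2 * (n : ℝ) + 3) * R) ^ n)]
      _ ≤ _ := by
          refine mul_le_mul' le_rfl (ENNReal.ofReal_le_ofReal ?_)
          exact tail_num hR hs0 hr1 (hrR.trans hRsR) hlm hlam (abs_nonneg t) hCv hρ hN1 hN2
            hα hδ
  have h7 : ENNReal.ofReal (C₁ * R ^ (δ / 2) * La ^ (n + 1) * m₀) =
      ENNReal.ofReal (C₁ * CE ^ (n + 1) * (R ^ δ * lam ^ (3 * n + 3) * lm ^ (n + 1) * m₀)) := by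
    congr 1
    have e1 : (ρ ^ 2) ^ (n + 1) = R ^ (δ / 2) * lam ^ (2 * n + 2) := by
      rw [hρ, ← pow_mul, mul_pow, ← Real.rpow_natCast (R ^ δ'), ← Real.rpow_mul hR0.le]
      congr 2
      rw [hδ']
      push_cast
      field_simp
      ring
    have e2 : R ^ δ = R ^ (δ / 2) * R ^ (δ / 2) := by
      rw [← Real.rpow_add hR0]
      congr 1
      ring
    have e3 : lam ^ (3 * n + 3) = lam ^ (2 * n + 2) * lam ^ (n + 1) := by
      rw [← pow_add]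
      congr 1
      ring
    rw [hLa, mul_pow, mul_pow, mul_pow, e1, e2, e3]
    ring
  rw [h7] at h4
  calc (2 * ∑ x ∈ J, ∫⁻ y, ‖Ua (ac a x (sR R)) t (E.indicator f) y‖ₑ ^ 2) +
        (J.card : ℝ≥0∞) * (2 * ENNReal.ofReal (T ^ 2 * (Cv * (lm * r) * (lm * (R * s)) ^ n)))
      ≤ 2 * ENNReal.ofReal (C₁ * CE ^ (n + 1) * (R ^ δ * lam ^ (3 * n + 3) * lm ^ (n + 1) * m₀)) +
        2 * ENNReal.ofReal (C₂ * (R ^ δ * lam ^ (3 * n + 3) * lm ^ (n + 1) * m₀)) :=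
        add_le_add (mul_le_mul' le_rfl h4) h6
    _ = ENNReal.ofReal ((2 * (C₁ * CE ^ (n + 1)) + 2 * C₂) *
          (R ^ δ * lam ^ (3 * n + 3) * lm ^ (n + 1) * m₀)) := by
        rw [← ENNReal.ofReal_ofNat 2, ← ENNReal.ofReal_mul (by norm_num),
          ← ENNReal.ofReal_mul (by norm_num), ← ENNReal.ofReal_add (by positivity)
            (by positivity)]
        congr 1
        ring

end Pool.Agent.H86.FD
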