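import Pool.Agent.H86.FD.Trq

/-!
MP_ee74d2_an, theorem FD, data layer: the contribution of the data outside the box.
-/

set_option autoImplicit false

namespace Pool.Agent.H86.FD

open MeasureTheory Set FourierTransform
open scoped ENNReal NNReal RealInnerProductSpace
open Pool.Agent.H83.LS
open Pool.Agent.H81.GT
open Pool.Agent.H83.G (Z TF Rg Cls pl Lo Bp TP wt sR)

theorem tail_one (hCOV : T_COV) (hACS : T_ACS) (hTAI : T_TAI) (hPLE : T_PLE) (hTRQ : T_TRQ)
    (n N : ℕ) (κ : ℝ) (a : EE (n + 1) → ℂ) (hn : 1 ≤ n) (hκ : κ ≤ 1 / 8) (ha : SymE n κ a) :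
    ∃ Ct CE : ℝ, 0 < Ct ∧ 1 ≤ CE ∧ ∀ (R A s r lm t ρ : ℝ) (η x : EE n) (z₀ : Z n)
    (f : EE (n + 1) → ℂ), 1 ≤ R → 0 < A → BCd A f → sR R ≤ s → s ≤ 1 → R * s ^ 2 ≤ r → 1 ≤ lm →
    1 ≤ ρ → ‖x - η‖ ≤ s → ∀ y ∈ bx t (lm * r) (lm * (R * s)) η z₀,
    ‖Ua (ac a x (sR R)) t ((bx 0 (CE * lm * ρ ^ 2 * (1 + |t| / R) * r)
      (CE * lm * ρ ^ 2 * (1 + |t| / R) * (R * s)) η z₀)ᶜ.indicator f) y‖ₑ ≤
      ENNReal.ofReal (A * (Ct * (1 + |t| + Real.sqrt R) ^ (n + 3) * (ρ ^ N)⁻¹)) := by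
  obtain ⟨Ct, hCt, hT⟩ := hTAI n N κ a hn hκ ha
  obtain ⟨Cq, hCq, hTr⟩ := hTRQ n
  refine ⟨Ct, 1 + Cq, hCt, by linarith, ?_⟩
  intro R A s r lm t ρ η x z₀ f hR hA hf hs hs1 hr hlm hρ hx y hy
  obtain ⟨hσ0, hσ1, hσi, hh1, hh2, hRσ⟩ := sR_facts hR
  have hR0 : 0 < R := by linarith
  have hs0 : 0 < s := by linarith
  obtain ⟨hb, hb1, hb2⟩ := hACS n κ (sR R) x a hκ ha hσ0
  set lam : ℝ := 1 + |t| / R with hlam
  have hlam1 : 1 ≤ lam := by
    rw [hlam]
    have : 0 ≤ |t| / R := by positivity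
    linarith
  have hr1 : 1 ≤ r := by
    have h1 : 1 ≤ R * s ^ 2 := by
      calc (1 : ℝ) = R * sR R ^ 2 := by
            unfold sR
            rw [inv_pow, hh2, mul_inv_cancel₀ hR0.ne']
        _ ≤ R * s ^ 2 := by gcongr
    linarith
  set E : Set (EE (n + 1)) := bx 0 ((1 + Cq) * lm * ρ ^ 2 * lam * r)
    ((1 + Cq) * lm * ρ ^ 2 * lam * (R * s)) η z₀ with hE
  have hEm : MeasurableSet E := bx_meas _ _ _ _ _
  obtain ⟨-, hf2, -⟩ := Ua_split hPLE hb t hf hEm
  rw [Ua_conv hb hPLE t hf2]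
  set U : Set (EE (n + 1)) := {u | y - u ∉ E} with hU
  have hUm : MeasurableSet U := (measurable_const.sub measurable_id) hEm.compl
  have h4 : ∀ u ∈ U, ∀ θ ∈ Th x (sR R), ρ ≤ Wz (sR R) (zt u t) θ := by
    intro u hu θ hθ
    by_contra hcon
    apply hu
    have e1 : zt (y - u) 0 - z₀ = (zt y t - z₀) - zt u t := by
      have := zt_sub y u t t
      rw [sub_self] at this
      rw [← this]
      abel
    have e2 : tz (zt u t) = t := ((hCOV n).1 u t).2
    have h5 := hTr R s r ρ η θ (zt u t) hR hs hs1 hr hρ hθ.2 (by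
      calc ‖η - θ‖ = ‖-(x - η) - (θ - x)‖ := by congr 1; abel
        _ ≤ ‖-(x - η)‖ + ‖θ - x‖ := norm_sub_le _ _
        _ ≤ s + 4 * sR R := by
            rw [norm_neg]
            have := hθ.1
            linarith
        _ ≤ 5 * s := by linarith) (not_le.1 hcon).le
    rw [e2] at h5
    obtain ⟨h6, h7⟩ := h5
    obtain ⟨h8, h9⟩ := hy
    have e3 : ∀ c : ℝ, 1 ≤ c → lm * c ≤ lm * ρ ^ 2 * lam * c := by
      intro c hc
      have : 1 ≤ ρ ^ 2 * lam := one_le_mul_of_one_le_of_one_le (one_le_pow₀ hρ) hlam1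
      have h10 : 0 ≤ lm * c := by positivity
      calc lm * c = (lm * c) * 1 := (mul_one _).symm
        _ ≤ (lm * c) * (ρ ^ 2 * lam) := by gcongr
        _ = _ := by ring
    have e4 : ∀ c : ℝ, 1 ≤ c → Cq * ρ ^ 2 * lam * c ≤ Cq * lm * ρ ^ 2 * lam * c := by
      intro c hc
      have h10 : 0 ≤ Cq * ρ ^ 2 * lam * c := by positivity
      calc Cq * ρ ^ 2 * lam * c = 1 * (Cq * ρ ^ 2 * lam * c) := (one_mul _).symm
        _ ≤ lm * (Cq * ρ ^ 2 * lam * c) := by gcongr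
        _ = _ := by ring
    have hRs1 : 1 ≤ R * s := by
      have : R * sR R ≤ R * s := by gcongr
      linarith
    constructor
    · have e5 : Qz (zt (y - u) 0 - z₀) η = Qz (zt y t - z₀) η - Qz (zt u t) η := by
        rw [e1]
        unfold Qz
        simp only [Prod.fst_sub, Prod.snd_sub]
        rw [inner_sub_left]
        ring
      rw [e5]
      refine (abs_sub _ _).trans ?_
      have := e3 r hr1
      have := e4 r hr1
      have e6 : (1 + Cq) * lm * ρ ^ 2 * lam * r =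
        lm * ρ ^ 2 * lam * r + Cq * lm * ρ ^ 2 * lam * r := by ring
      rw [e6]
      linarith
    · have e5 : Yz (zt (y - u) 0 - z₀) η = Yz (zt y t - z₀) η - Yz (zt u t) η := by
        rw [e1]
        unfold Yz
        simp only [Prod.fst_sub, Prod.snd_sub]
        rw [mul_sub, sub_smul]
        abel
      rw [e5]
      refine (norm_sub_le _ _).trans ?_
      have := e3 (R * s) hRs1
      have := e4 (R * s) hRs1
      have e6 : (1 + Cq) * lm * ρ ^ 2 * lam * (R * s) =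
        lm * ρ ^ 2 * lam * (R * s) + Cq * lm * ρ ^ 2 * lam * (R * s) := by ring
      rw [e6]
      linarith
  have h5 := hT x (sR R) ρ t U hσ0 hσ1 hρ hUm h4
  rw [hσi] at h5
  calc ‖∫ y', Kt (ac a x (sR R)) t (y - y') * Eᶜ.indicator f y'‖ₑ
      ≤ ∫⁻ y', ‖Kt (ac a x (sR R)) t (y - y') * Eᶜ.indicator f y'‖ₑ :=
        enorm_integral_le_lintegral_enorm _
    _ ≤ ∫⁻ y', (U.indicator fun u => ‖Kt (ac a x (sR R)) t u‖ₑ * ENNReal.ofReal A) (y - y') := by
        refine lintegral_mono fun y' => ?_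
        by_cases hy' : y' ∈ E
        · have : Eᶜ.indicator f y' = 0 := indicator_of_notMem (by simpa using hy') _
          rw [this, mul_zero, enorm_zero]
          exact zero_le
        · have hyU : y - y' ∈ U := by
            show y - (y - y') ∉ E
            rw [sub_sub_cancel]
            exact hy'
          rw [indicator_of_mem (show y' ∈ Eᶜ from hy'), indicator_of_mem hyU, enorm_mul]
          gcongr
          rw [← ofReal_norm]
          exact ENNReal.ofReal_le_ofReal (hf.2.1 y')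
    _ = ∫⁻ u, (U.indicator fun u => ‖Kt (ac a x (sR R)) t u‖ₑ * ENNReal.ofReal A) u :=
        lintegral_sub_left_eq_self _ y
    _ = (∫⁻ u in U, ‖Kt (ac a x (sR R)) t u‖ₑ) * ENNReal.ofReal A := by
        rw [lintegral_indicator hUm, lintegral_mul_const' _ _ ENNReal.ofReal_ne_top]
    _ ≤ ENNReal.ofReal (Ct * (1 + |t| + Real.sqrt R) ^ (n + 3) * (ρ ^ N)⁻¹) *
        ENNReal.ofReal A := by
        gcongr
    _ = _ := by
        rw [mul_comm, ← ENNReal.ofReal_mul hA.le]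

end Pool.Agent.H86.FD
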