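import Pool.Agent.H86.FD.Vol

/-!
MP_ee74d2_an, theorem FD, data layer: targets.
-/

set_option autoImplicit false

namespace Pool.Agent.H86.FD

open MeasureTheory Set FourierTransform
open scoped ENNReal NNReal RealInnerProductSpace
open Pool.Agent.H83.LS
open Pool.Agent.H81.GT
open Pool.Agent.H83.G (Z TF Rg Cls pl Lo Bp TP wt sR)

/-- masses of balls of radius between `1` and `R` -/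
def Fro (n : ℕ) (α R A : ℝ) (f : EE (n + 1) → ℂ) : Prop :=
  ∀ (x : EE (n + 1)) (ρ : ℝ), 1 ≤ ρ → ρ ≤ R →
    ∫⁻ y in Metric.closedBall x ρ, ‖f y‖ₑ ≤ ENNReal.ofReal (A * ρ ^ α)

/-- QUA: Plancherel and the quadratic form of a nonnegative symbol -/
def T_QUA : Prop := ∀ (n : ℕ) (κ A : ℝ) (b g : EE (n + 1) → ℂ), SymE n κ b → BCd A g →
  (∀ t : ℝ, ∫⁻ x, ‖Ua b t g x‖ₑ ^ 2 = ∫⁻ ξ, ‖b ξ‖ₑ ^ 2 * ‖𝓕 g ξ‖ₑ ^ 2) ∧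
  ∀ r : EE (n + 1) → ℝ, (∀ ξ, 0 ≤ r ξ ∧ b ξ = (r ξ : ℂ)) →
    ∫⁻ ξ, ENNReal.ofReal (r ξ) * ‖𝓕 g ξ‖ₑ ^ 2 ≤ ∫⁻ x, ‖g x‖ₑ * ‖Ua b 0 g x‖ₑ

/-- KSU: sup bound of the part of the data in a cap, `α ≤ n` -/
def T_KSU : Prop := ∀ (n : ℕ) (κ δ α : ℝ) (a : EE (n + 1) → ℂ), 1 ≤ n → κ ≤ 1 / 8 →
  SymE n κ a → 0 < δ → 0 < α → α ≤ n → ∃ C : ℝ, 0 < C ∧
  ∀ (R A s : ℝ) (η : EE n) (f g : EE (n + 1) → ℂ), 1 ≤ R → 0 < A → BCd A f → Fro n α R A f →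
  BCd A g → (∀ y, ‖g y‖ ≤ ‖f y‖) → sR R ≤ s → s ≤ 1 → ∀ x,
  ‖Ua (ac a η s) 0 g x‖ₑ ≤ ENNReal.ofReal (C * R ^ δ * (A * s ^ ((n : ℝ) - α)))

/-- TRQ: transport to the time `0`, seen from another direction -/
def T_TRQ : Prop := ∀ n : ℕ, ∃ C : ℝ, 1 ≤ C ∧ ∀ (R s r ρ : ℝ) (η θ : EE n) (q : Z n), 1 ≤ R →
  sR R ≤ s → s ≤ 1 → R * s ^ 2 ≤ r → 1 ≤ ρ → ‖θ‖ ≤ 1 / 3 → ‖η - θ‖ ≤ 5 * s →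
  Wz (sR R) q θ ≤ ρ →
  |Qz q η| ≤ C * ρ ^ 2 * (1 + |tz q| / R) * r ∧
    ‖Yz q η‖ ≤ C * ρ ^ 2 * (1 + |tz q| / R) * (R * s)

end Pool.Agent.H86.FD
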