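import Pool.Agent.H86.FD.Slice

/-!
MP_ee74d2_an, theorem FD, data layer: integration in time.
-/

set_option autoImplicit false

namespace Pool.Agent.H86.FD

open MeasureTheory Set FourierTransform
open scoped ENNReal NNReal RealInnerProductSpace
open Pool.Agent.H83.LS
open Pool.Agent.H81.GT
open Pool.Agent.H83.G (Z TF Rg Cls pl Lo Bp TP wt sR)

/-- the box in space-time -/
def BX {n : ℕ} (D M : ℝ) (η : EE n) (z₀ : Z n) : Set (Z n) :=
  {z | |Qz (z - z₀) η| ≤ D ∧ ‖Yz (z - z₀) η‖ ≤ M}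

theorem BX_meas {n : ℕ} (D M : ℝ) (η : EE n) (z₀ : Z n) : MeasurableSet (BX D M η z₀) := by
  have h1 : Continuous fun z : Z n => |Qz (z - z₀) η| :=
    ((Qz_cont η).comp (continuous_id.sub continuous_const)).abs
  have h2 : Continuous fun z : Z n => ‖Yz (z - z₀) η‖ :=
    ((Yz_cont η).comp (continuous_id.sub continuous_const)).norm
  exact ((isClosed_le h1 continuous_const).inter (isClosed_le h2 continuous_const)).measurableSet

theorem int_time : ∃ c : ℝ, 0 < c ∧ ∀ R : ℝ, 0 < R →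
    ∫⁻ t : ℝ, ENNReal.ofReal (((1 + |t| / R) ^ 2)⁻¹) ≤ ENNReal.ofReal (c * R) := by
  set g : ℝ → ℝ≥0∞ := fun u => ENNReal.ofReal (((1 + |u|) ^ 2)⁻¹) with hg
  have hgm : Measurable g := by
    apply Measurable.ennreal_ofReal
    fun_prop
  have hfin : ∫⁻ u, g u ≠ ⊤ := by
    have h1 : Integrable fun x : ℝ => (1 + ‖x‖) ^ (-(2 : ℝ)) := by
      apply integrable_one_add_norm
      simp
    have h2 := h1.lintegral_lt_top
    refine ne_of_lt (lt_of_le_of_lt (le_of_eq ?_) h2)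
    refine lintegral_congr fun u => ?_
    simp only [hg]
    congr 1
    rw [Real.rpow_neg (by positivity), Real.norm_eq_abs]
    norm_num
  refine ⟨(∫⁻ u, g u).toReal + 1, by positivity, ?_⟩
  intro R hR
  have h1 : ∫⁻ t : ℝ, ENNReal.ofReal (((1 + |t| / R) ^ 2)⁻¹) = ∫⁻ t : ℝ, g (R⁻¹ * t) := by
    refine lintegral_congr fun t => ?_
    simp only [hg]
    congr 4
    rw [abs_mul, abs_inv, abs_of_pos hR]
    ring
  have h2 : ∫⁻ t : ℝ, g (R⁻¹ * t) = ENNReal.ofReal R * ∫⁻ u, g u := by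
    rw [← lintegral_map hgm (measurable_const_mul R⁻¹),
      Real.map_volume_mul_left (inv_ne_zero hR.ne'), lintegral_smul_measure, inv_inv,
      abs_of_pos hR, smul_eq_mul]
  rw [h1, h2, ← ENNReal.ofReal_toReal hfin, ← ENNReal.ofReal_mul hR.le]
  apply ENNReal.ofReal_le_ofReal
  rw [ENNReal.toReal_ofReal ENNReal.toReal_nonneg]
  nlinarith [hR]

/-- the pieces in a box of space-time -/
theorem boxes (hCOV : T_COV) (hREP : T_REP) (hACS : T_ACS) (hTAI : T_TAI) (hPLE : T_PLE)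
    (hTRQ : T_TRQ) (hQUA : T_QUA) (hKSU : T_KSU) (n : ℕ) (κ δ α : ℝ) (a : EE (n + 1) → ℂ)
    (X χ : ℝ → ℂ) (hn : 1 ≤ n) (hκ : κ ≤ 1 / 8) (ha : SymE n κ a) (hX : IsX X χ) (hδ : 0 < δ)
    (hα : 0 < α) : ∃ C : ℝ, 0 < C ∧
    ∀ (R A s r lm : ℝ) (η : EE n) (z₀ : Z n) (f : EE (n + 1) → ℂ) (I : Finset (EE n)),
    1 ≤ R → 0 < A → BCd A f → Fro n α R A f → sR R ≤ s → s ≤ 1 → R * s ^ 2 ≤ r → r ≤ R * s →
    1 ≤ lm → (∀ x ∈ I, ‖x - η‖ ≤ s) →
    (∀ x ∈ I, ∀ y ∈ I, x ≠ y → sR R ≤ ((n : ℝ) + 1) * ‖x - y‖) →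
    ∑ x ∈ I, ∫⁻ z in BX (lm * r) (lm * (R * s)) η z₀, ‖TF (Gf X R (ac a x (sR R)) f) z‖ₑ ^ 2 ≤
      ENNReal.ofReal (C * (R ^ δ * lm ^ (n + 1) *
        (A ^ 2 * (R * (R * s) ^ n * min (R ^ (α - n)) (r ^ (α - n)))))) := by
  obtain ⟨C, hC, hS⟩ := slice hCOV hACS hTAI hPLE hTRQ hQUA hKSU n κ δ α a hn hκ ha hδ hα
  obtain ⟨Cx, hCx, hχ⟩ := hX.2.2.2.2.2 (3 * n + 5)
  obtain ⟨c, hc, hT⟩ := int_time
  refine ⟨C * Cx ^ 2 * c, by positivity, ?_⟩
  intro R A s r lm η z₀ f I hR hA hf hF hs hs1 hr hrR hlm hIs hI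
  obtain ⟨hσ0, hσ1, hσi, hh1, hh2, hRσ⟩ := sR_facts hR
  have hR0 : 0 < R := by linarith
  have hs0 : 0 < s := by linarith
  have hr0 : 0 < r := lt_of_lt_of_le (by positivity) hr
  set m₀ : ℝ := A ^ 2 * ((R * s) ^ n * min (R ^ (α - n)) (r ^ (α - n))) with hm₀
  have hmin0 : 0 ≤ min (R ^ (α - n)) (r ^ (α - n)) := le_min (by positivity) (by positivity)
  have hm₀0 : 0 ≤ m₀ := by positivity
  set B : Set (Z n) := BX (lm * r) (lm * (R * s)) η z₀ with hB
  have hBm : MeasurableSet B := BX_meas _ _ _ _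
  set F : EE n → Z n → ℝ≥0∞ := fun x z =>
    ‖Ua (ac a x (sR R)) (tz z) f (xz z) * χ (tz z / R)‖ₑ ^ 2 with hFd
  have hFm : ∀ x, Measurable (F x) := by
    intro x
    have h1 := Ua_zcont (hACS n κ (sR R) x a hκ ha hσ0).1 (Pool.Agent.H19.LS.BCd_int A _ hf)
    have h2 : Continuous fun z : Z n => χ (tz z / R) :=
      hX.2.2.2.2.1.comp (tz_cont.div_const R)
    exact (h1.mul h2).enorm.measurable.pow_const 2
  have h1 : ∑ x ∈ I, ∫⁻ z in B, ‖TF (Gf X R (ac a x (sR R)) f) z‖ₑ ^ 2 =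
      ∫⁻ z, B.indicator (fun z => ∑ x ∈ I, F x z) z := by
    rw [lintegral_indicator hBm, lintegral_finsetSum _ (fun x _ => hFm x)]
    refine Finset.sum_congr rfl fun x _ => ?_
    refine lintegral_congr fun z => ?_
    simp only [hFd]
    rw [(hREP n κ R A (ac a x (sR R)) f X χ hκ (hACS n κ (sR R) x a hκ ha hσ0).1 hX hR hf).2.2 z]
  rw [h1, (hCOV n).2.2.1 _ ((Finset.measurable_sum _ (fun x _ => hFm x)).indicator hBm)]
  set K : ℝ := C * Cx ^ 2 * (R ^ δ * lm ^ (n + 1) * m₀) with hK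
  have hK0 : 0 ≤ K := by positivity
  have hslice : ∀ t : ℝ, ∫⁻ y : EE (n + 1), B.indicator (fun z => ∑ x ∈ I, F x z) (zt y t) ≤
      ENNReal.ofReal K * ENNReal.ofReal (((1 + |t| / R) ^ 2)⁻¹) := by
    intro t
    set P : Set (EE (n + 1)) := bx t (lm * r) (lm * (R * s)) η z₀ with hP
    have hPm : MeasurableSet P := bx_meas _ _ _ _ _
    have e1 : ∀ y : EE (n + 1), B.indicator (fun z => ∑ x ∈ I, F x z) (zt y t) =
        ‖χ (t / R)‖ₑ ^ 2 * P.indicator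
          (fun y => ∑ x ∈ I, ‖Ua (ac a x (sR R)) t f y‖ₑ ^ 2) y := by
      intro y
      by_cases hy : zt y t ∈ B
      · rw [indicator_of_mem hy, indicator_of_mem (show y ∈ P from hy), Finset.mul_sum]
        refine Finset.sum_congr rfl fun x _ => ?_
        simp only [hFd]
        rw [((hCOV n).1 y t).1, ((hCOV n).1 y t).2, enorm_mul, mul_pow, mul_comm]
      · rw [indicator_of_notMem hy, indicator_of_notMem (show y ∉ P from hy), mul_zero]
    simp_rw [e1]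
    rw [lintegral_const_mul' _ _ (by finiteness), lintegral_indicator hPm,
      lintegral_finsetSum]
    · have h2 := hS R A s r lm t η z₀ f I hR hA hf hF hs hs1 hr hrR hlm hIs hI
      have h3 : ‖χ (t / R)‖ₑ ^ 2 ≤ ENNReal.ofReal ((Cx * ((1 + |t / R|) ^ (3 * n + 5))⁻¹) ^ 2) := by
        rw [← ofReal_norm, ← ENNReal.ofReal_pow (norm_nonneg _)]
        apply ENNReal.ofReal_le_ofReal
        gcongr
        exact hχ _
      refine (mul_le_mul' h3 h2).trans ?_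
      rw [← ENNReal.ofReal_mul (by positivity), ← ENNReal.ofReal_mul hK0]
      apply ENNReal.ofReal_le_ofReal
      have e2 : |t / R| = |t| / R := by rw [abs_div, abs_of_pos hR0]
      rw [e2, hK]
      set l : ℝ := 1 + |t| / R with hl
      have hl1 : 1 ≤ l := by
        have : 0 ≤ |t| / R := by positivity
        linarith
      have hl0 : 0 < l := by linarith
      have h4 : (Cx * (l ^ (3 * n + 5))⁻¹) ^ 2 * (C * (R ^ δ * l ^ (3 * n + 3) * lm ^ (n + 1) *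
          m₀)) = (C * Cx ^ 2 * (R ^ δ * lm ^ (n + 1) * m₀)) *
            ((l ^ 2)⁻¹ * (l ^ (3 * n + 5))⁻¹) := by
        have e3 : l ^ (3 * n + 5) = l ^ (3 * n + 3) * l ^ 2 := by rw [← pow_add]
        rw [e3]
        field_simp
      rw [h4]
      have h5 : (l ^ (3 * n + 5))⁻¹ ≤ 1 := inv_le_one_of_one_le₀ (one_le_pow₀ hl1)
      calc (C * Cx ^ 2 * (R ^ δ * lm ^ (n + 1) * m₀)) * ((l ^ 2)⁻¹ * (l ^ (3 * n + 5))⁻¹)
          ≤ (C * Cx ^ 2 * (R ^ δ * lm ^ (n + 1) * m₀)) * ((l ^ 2)⁻¹ * 1) := by gcongr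
        _ = _ := by rw [mul_one]
    · intro x _
      exact ((Ua_meas (hACS n κ (sR R) x a hκ ha hσ0).1
        (Pool.Agent.H19.LS.BCd_int A _ hf)).comp
        (continuous_const.prodMk continuous_id)).enorm.measurable.pow_const 2
  calc 2⁻¹ * ∫⁻ t : ℝ, ∫⁻ y : EE (n + 1), B.indicator (fun z => ∑ x ∈ I, F x z) (zt y t)
      ≤ 1 * ∫⁻ t : ℝ, ENNReal.ofReal K * ENNReal.ofReal (((1 + |t| / R) ^ 2)⁻¹) := by
        gcongr with t
        · norm_num
        · exact hslice t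
    _ = ENNReal.ofReal K * ∫⁻ t : ℝ, ENNReal.ofReal (((1 + |t| / R) ^ 2)⁻¹) := by
        rw [one_mul, lintegral_const_mul' _ _ ENNReal.ofReal_ne_top]
    _ ≤ ENNReal.ofReal K * ENNReal.ofReal (c * R) := by
        gcongr
        exact hT R hR0
    _ = _ := by
        rw [← ENNReal.ofReal_mul hK0, hK, hm₀]
        congr 1
        ring

end Pool.Agent.H86.FD
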