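import Pool.Agent.H86.FD.Tar

/-!
MP_ee74d2_an, theorem FD, data layer: transport to the time `0`.
-/

set_option autoImplicit false

namespace Pool.Agent.H86.FD

open MeasureTheory Set FourierTransform
open scoped ENNReal NNReal RealInnerProductSpace
open Pool.Agent.H83.LS
open Pool.Agent.H81.GT
open Pool.Agent.H83.G (Z TF Rg Cls pl Lo Bp TP wt sR)

/-- change of the direction -/
theorem Qz_dir {n : ℕ} (z : Z n) (η θ : EE n) :
    Qz z η = Qz z θ + ⟪Yz z θ, η - θ⟫ + z.2.2 * ‖η - θ‖ ^ 2 := by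
  unfold Qz Yz
  have h1 : ‖η - θ‖ ^ 2 = ‖η‖ ^ 2 - 2 * ⟪η, θ⟫ + ‖θ‖ ^ 2 := norm_sub_sq_real _ _
  rw [h1, inner_sub_right, inner_add_left, inner_add_left, real_inner_smul_left,
    real_inner_smul_left, real_inner_self_eq_norm_sq, real_inner_comm η θ]
  ring

theorem Yz_dir {n : ℕ} (z : Z n) (η θ : EE n) :
    Yz z η = Yz z θ + (2 * z.2.2) • (η - θ) := by
  unfold Yz
  rw [smul_sub]
  abel

theorem sg_nonneg {s w : ℝ} (hs : 0 < s) : 0 ≤ sg s w := by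
  unfold sg
  positivity

theorem Qz_le_Wz {n : ℕ} {s : ℝ} (hs : 0 < s) (z : Z n) (θ : EE n) : |Qz z θ| ≤ Wz s z θ := by
  unfold Wz
  have h1 : 0 ≤ sg s z.2.2 * ‖Yz z θ‖ := mul_nonneg (sg_nonneg hs) (norm_nonneg _)
  linarith

theorem sR_facts {R : ℝ} (hR : 1 ≤ R) :
    0 < sR R ∧ sR R ≤ 1 ∧ (sR R)⁻¹ = Real.sqrt R ∧ 1 ≤ Real.sqrt R ∧ Real.sqrt R ^ 2 = R ∧
      1 ≤ R * sR R := by
  have h0 : 0 < R := by linarith
  have h1 : 1 ≤ Real.sqrt R := Real.one_le_sqrt.2 hR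
  have h2 : Real.sqrt R ^ 2 = R := Real.sq_sqrt h0.le
  unfold sR
  refine ⟨by positivity, inv_le_one_of_one_le₀ h1, inv_inv _, h1, h2, ?_⟩
  rw [← div_eq_mul_inv, le_div_iff₀ (by positivity), one_mul]
  nlinarith

theorem pf_TRQ (hPOW : T_POW) : T_TRQ := by
  intro n
  obtain ⟨C, hC, hP⟩ := hPOW n
  refine ⟨1 + 85 * C, by linarith, ?_⟩
  intro R s r ρ η θ q hR hs hs1 hr hρ hθ hηθ hW
  obtain ⟨hσ0, hσ1, hσi, hh1, hh2, -⟩ := sR_facts hR
  obtain ⟨h1, h2⟩ := hP (sR R) q θ hσ0 hσ1 hθ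
  have hR0 : 0 < R := by linarith
  have hs0 : 0 < s := by linarith
  set h : ℝ := Real.sqrt R with hh
  set T : ℝ := |tz q| with hT
  have hT0 : 0 ≤ T := abs_nonneg _
  set lam : ℝ := 1 + T / R with hlam
  have hlam1 : 1 ≤ lam := by
    rw [hlam]
    have : 0 ≤ T / R := by positivity
    linarith
  have hRl : R * lam = R + T := by
    rw [hlam]
    field_simp
  rw [hσi] at h1 h2
  have hhs : 1 ≤ h * s := by
    have : (sR R) * h ≤ s * h := by gcongr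
    have e : sR R * h = 1 := by
      rw [← hσi]
      exact mul_inv_cancel₀ hσ0.ne'
    linarith [mul_comm s h]
  have hh0 : 0 < h := by linarith
  -- weights
  have hW0 : 0 ≤ Wz (sR R) q θ := le_trans (abs_nonneg _) (Qz_le_Wz hσ0 q θ)
  have hW2 : Wz (sR R) q θ ^ 2 ≤ ρ ^ 2 := by gcongr
  have hρ2 : ρ ≤ ρ ^ 2 := by nlinarith
  have hQ : |Qz q θ| ≤ ρ := (Qz_le_Wz hσ0 q θ).trans hW
  -- square root of the time
  have hsq : Real.sqrt T ≤ h * lam := by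
    rw [Real.sqrt_le_left (by positivity)]
    have e : (h * lam) ^ 2 = R * lam * lam := by rw [mul_pow, hh2]; ring
    rw [e]
    nlinarith
  have hsum : h + Real.sqrt T ≤ 2 * (h * lam) := by nlinarith
  have hY : ‖Yz q θ‖ ≤ C * ρ ^ 2 * (2 * (h * lam)) := by
    refine h2.trans ?_
    have : 0 ≤ Real.sqrt T := Real.sqrt_nonneg _
    gcongr
  have hw : |q.2.2| ≤ C * ρ ^ 2 * (3 * (R * lam)) := by
    have h3 : |q.2.2| ≤ ‖q‖ := by
      have h4 : ‖q.2‖ ≤ ‖q‖ := norm_snd_le q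
      have h5 : ‖q.2.2‖ ≤ ‖q.2‖ := norm_snd_le q.2
      exact h5.trans h4
    have h6 : 1 + T + h ≤ 3 * (R * lam) := by nlinarith
    have h7 : C * (1 + T + h) * Wz (sR R) q θ ^ 2 ≤ C * (3 * (R * lam)) * ρ ^ 2 := by
      gcongr
    nlinarith
  have hρ20 : 0 ≤ ρ ^ 2 := sq_nonneg _
  have hRs2 : h * s ≤ R * s ^ 2 := by
    have e : R * s ^ 2 = (h * s) * (h * s) := by rw [← hh2]; ring
    rw [e]
    nlinarith
  have hRs : h ≤ R * s := by
    have e : R * s = h * (h * s) := by rw [← hh2]; ring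
    rw [e]
    nlinarith
  have hη0 : 0 ≤ ‖η - θ‖ := norm_nonneg _
  constructor
  · rw [Qz_dir q η θ]
    have h3 : |⟪Yz q θ, η - θ⟫| ≤ ‖Yz q θ‖ * ‖η - θ‖ := abs_real_inner_le_norm _ _
    have h4 : ‖Yz q θ‖ * ‖η - θ‖ ≤ (C * ρ ^ 2 * (2 * (h * lam))) * (5 * s) := by gcongr
    have h5 : |q.2.2 * ‖η - θ‖ ^ 2| ≤ (C * ρ ^ 2 * (3 * (R * lam))) * (5 * s) ^ 2 := by
      rw [abs_mul, abs_of_nonneg (sq_nonneg ‖η - θ‖)]
      gcongr
    have h6 : |Qz q θ + ⟪Yz q θ, η - θ⟫ + q.2.2 * ‖η - θ‖ ^ 2| ≤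
        |Qz q θ| + |⟪Yz q θ, η - θ⟫| + |q.2.2 * ‖η - θ‖ ^ 2| := abs_add_three _ _ _
    have h7 : (C * ρ ^ 2 * (2 * (h * lam))) * (5 * s) ≤ 10 * C * ρ ^ 2 * lam * r := by
      have : (C * ρ ^ 2 * (2 * (h * lam))) * (5 * s) = 10 * C * ρ ^ 2 * lam * (h * s) := by ring
      rw [this]
      have : h * s ≤ r := hRs2.trans hr
      gcongr
    have h8 : (C * ρ ^ 2 * (3 * (R * lam))) * (5 * s) ^ 2 ≤ 75 * C * ρ ^ 2 * lam * r := by
      have : (C * ρ ^ 2 * (3 * (R * lam))) * (5 * s) ^ 2 = 75 * C * ρ ^ 2 * lam * (R * s ^ 2) := by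
        ring
      rw [this]
      gcongr
    have hr1 : 1 ≤ r := by nlinarith
    have h9 : ρ ≤ ρ ^ 2 * lam * r := by
      have : 1 ≤ lam * r := one_le_mul_of_one_le_of_one_le hlam1 hr1
      nlinarith
    have h10 : (1 + 85 * C) * ρ ^ 2 * lam * r =
        ρ ^ 2 * lam * r + 10 * C * ρ ^ 2 * lam * r + 75 * C * ρ ^ 2 * lam * r := by ring
    rw [h10]
    linarith
  · rw [Yz_dir q η θ]
    refine (norm_add_le _ _).trans ?_
    rw [norm_smul, Real.norm_eq_abs, abs_mul, abs_two]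
    have h3 : 2 * |q.2.2| * ‖η - θ‖ ≤ 2 * (C * ρ ^ 2 * (3 * (R * lam))) * (5 * s) := by gcongr
    have h4 : C * ρ ^ 2 * (2 * (h * lam)) ≤ 2 * C * ρ ^ 2 * lam * (R * s) := by
      have : C * ρ ^ 2 * (2 * (h * lam)) = 2 * C * ρ ^ 2 * lam * h := by ring
      rw [this]
      gcongr
    have h5 : 2 * (C * ρ ^ 2 * (3 * (R * lam))) * (5 * s) = 30 * C * ρ ^ 2 * lam * (R * s) := by
      ring
    have h6 : 0 ≤ ρ ^ 2 * lam * (R * s) := by positivity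
    have h7 : (1 + 85 * C) * ρ ^ 2 * lam * (R * s) =
        2 * C * ρ ^ 2 * lam * (R * s) + 30 * C * ρ ^ 2 * lam * (R * s) +
          (1 + 53 * C) * (ρ ^ 2 * lam * (R * s)) := by ring
    have h8 : 0 ≤ (1 + 53 * C) * (ρ ^ 2 * lam * (R * s)) := by positivity
    linarith

end Pool.Agent.H86.FD
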