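import Pool.Agent.H81.GT.SHP

/-!
MP_ee74d2_an, theorem FD, data layer: packing, volumes of boxes in time slices, averages.
-/

set_option autoImplicit false

namespace Pool.Agent.H86.FD

open MeasureTheory Set FourierTransform
open scoped ENNReal NNReal RealInnerProductSpace
open Pool.Agent.H83.LS
open Pool.Agent.H81.GT
open Pool.Agent.H83.G (Z TF Rg Cls pl Lo Bp TP wt)
open Pool.Agent.H54.LS (jo_last pr_jo jo_pr jo_norm_sq mp_jo continuous_pr)

/-- packing: a separated set in a ball -/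
theorem pack {d : ℕ} (I : Finset (EE d)) (τ ρ : ℝ) (p : EE d) (hτ : 0 < τ) (hρ : 0 ≤ ρ)
    (hsep : ∀ x ∈ I, ∀ y ∈ I, x ≠ y → τ ≤ ‖x - y‖) (hI : ∀ x ∈ I, ‖x - p‖ ≤ ρ) :
    (I.card : ℝ) ≤ (1 + 2 * ρ / τ) ^ d := by
  set v : ℝ≥0∞ := volume (Metric.ball (0 : EE d) 1) with hv
  have hv0 : v ≠ 0 := (Metric.measure_ball_pos _ _ one_pos).ne'
  have hvt : v ≠ ⊤ := measure_ball_lt_top.ne
  have hball : ∀ (x : EE d) (r : ℝ), 0 < r → volume (Metric.ball x r) = ENNReal.ofReal (r ^ d) * v := by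
    intro x r hr
    rw [Measure.addHaar_ball_of_pos _ _ hr, finrank_euclideanSpace, Fintype.card_fin]
  have hdis : (I : Set (EE d)).PairwiseDisjoint (fun x => Metric.ball x (τ / 2)) := by
    intro x hx y hy hxy
    refine Metric.ball_disjoint_ball ?_
    rw [add_halves, dist_eq_norm]
    exact hsep x hx y hy hxy
  have hsub : (⋃ x ∈ I, Metric.ball x (τ / 2)) ⊆ Metric.ball p (ρ + τ / 2) := by
    intro z hz
    simp only [mem_iUnion, exists_prop] at hz
    obtain ⟨x, hx, hzx⟩ := hz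
    rw [Metric.mem_ball, dist_eq_norm] at hzx ⊢
    have h1 := hI x hx
    calc ‖z - p‖ = ‖(z - x) + (x - p)‖ := by congr 1; abel
      _ ≤ ‖z - x‖ + ‖x - p‖ := norm_add_le _ _
      _ < ρ + τ / 2 := by linarith
  have h1 : (I.card : ℝ≥0∞) * (ENNReal.ofReal ((τ / 2) ^ d) * v) ≤
      ENNReal.ofReal ((ρ + τ / 2) ^ d) * v := by
    calc (I.card : ℝ≥0∞) * (ENNReal.ofReal ((τ / 2) ^ d) * v)
        = ∑ x ∈ I, volume (Metric.ball x (τ / 2)) := by
          rw [Finset.sum_congr rfl (fun x _ => hball x (τ / 2) (by positivity)),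
            Finset.sum_const, nsmul_eq_mul]
      _ = volume (⋃ x ∈ I, Metric.ball x (τ / 2)) :=
          (measure_biUnion_finset hdis (fun x _ => Metric.isOpen_ball.measurableSet)).symm
      _ ≤ volume (Metric.ball p (ρ + τ / 2)) := measure_mono hsub
      _ = _ := hball p _ (by positivity)
  rw [← mul_assoc] at h1
  have h2 := (ENNReal.mul_le_mul_iff_left hv0 hvt).1 h1
  have h3 : (I.card : ℝ) * (τ / 2) ^ d ≤ (ρ + τ / 2) ^ d := by
    have e1 : (I.card : ℝ≥0∞) = ENNReal.ofReal (I.card : ℝ) := by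
      rw [ENNReal.ofReal_natCast]
    rw [e1, ← ENNReal.ofReal_mul (by positivity)] at h2
    exact (ENNReal.ofReal_le_ofReal_iff (by positivity)).1 h2
  have h4 : (1 + 2 * ρ / τ) ^ d = (ρ + τ / 2) ^ d / (τ / 2) ^ d := by
    rw [← div_pow]
    congr 1
    field_simp
    ring
  rw [h4, le_div_iff₀ (by positivity)]
  exact h3

section

variable {n : ℕ}

/-- the box at the time `t` -/
def bx (t D M : ℝ) (η : EE n) (z₁ : Z n) : Set (EE (n + 1)) :=
  {x | |Qz (zt x t - z₁) η| ≤ D ∧ ‖Yz (zt x t - z₁) η‖ ≤ M}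

theorem zt_cont (t : ℝ) : Continuous fun x : EE (n + 1) => zt x t := by
  unfold zt
  refine Continuous.prodMk (by fun_prop) (Continuous.prodMk continuous_pr (by fun_prop))

theorem Qz_cont (η : EE n) : Continuous fun z : Z n => Qz z η := by
  unfold Qz
  fun_prop

theorem Yz_cont (η : EE n) : Continuous fun z : Z n => Yz z η := by
  unfold Yz
  fun_prop

theorem bx_meas (t D M : ℝ) (η : EE n) (z₁ : Z n) : MeasurableSet (bx t D M η z₁) := by
  have h1 : Continuous fun x : EE (n + 1) => |Qz (zt x t - z₁) η| :=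
    ((Qz_cont η).comp ((zt_cont t).sub continuous_const)).abs
  have h2 : Continuous fun x : EE (n + 1) => ‖Yz (zt x t - z₁) η‖ :=
    ((Yz_cont η).comp ((zt_cont t).sub continuous_const)).norm
  exact ((isClosed_le h1 continuous_const).inter (isClosed_le h2 continuous_const)).measurableSet

/-- length of a slab -/
theorem vol_aff (κ c D : ℝ) (hc : 1 / 2 ≤ c) (hD : 0 ≤ D) :
    volume {τ : ℝ | |κ + c * τ| ≤ D} ≤ ENNReal.ofReal (4 * D) := by
  have hc0 : 0 < c := by linarith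
  have h1 : {τ : ℝ | |κ + c * τ| ≤ D} ⊆ Icc ((-D - κ) / c) ((D - κ) / c) := by
    intro τ hτ
    obtain ⟨h2, h3⟩ := abs_le.1 (show |κ + c * τ| ≤ D from hτ)
    constructor
    · rw [div_le_iff₀ hc0]; linarith
    · rw [le_div_iff₀ hc0]; linarith
  refine (measure_mono h1).trans ?_
  rw [Real.volume_Icc]
  apply ENNReal.ofReal_le_ofReal
  have h4 : (D - κ) / c - (-D - κ) / c = 2 * D / c := by ring
  rw [h4, div_le_iff₀ hc0]
  nlinarith

/-- volume of the box at the time `t` -/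
theorem bx_vol (n : ℕ) : ∃ C : ℝ, 0 < C ∧ ∀ (t D M : ℝ) (η : EE n) (z₁ : Z n), 0 ≤ D → 0 ≤ M →
    volume (bx t D M η z₁) ≤ ENNReal.ofReal (C * D * M ^ n) := by
  set v : ℝ := (volume (Metric.closedBall (0 : EE n) 1)).toReal with hv
  have hv0 : 0 < v := ENNReal.toReal_pos
    ((Metric.measure_closedBall_pos _ _ one_pos).ne') measure_closedBall_lt_top.ne
  refine ⟨4 * v, by positivity, ?_⟩
  intro t D M η z₁ hD hM
  set c : ℝ := (1 + ‖η‖ ^ 2) / 2 with hc
  have hc1 : 1 / 2 ≤ c := by rw [hc]; nlinarith [sq_nonneg ‖η‖]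
  set κ : ℝ := t / 2 - z₁.1 - (t / 2 - z₁.2.2) * ‖η‖ ^ 2 with hκ
  set T : Set (EE n × ℝ) := {q | |κ + ⟪q.1, η⟫ + c * q.2| ≤ D ∧ ‖q.1‖ ≤ M} with hT
  have hTm : MeasurableSet T := by
    have h1 : Continuous fun q : EE n × ℝ => |κ + ⟪q.1, η⟫ + c * q.2| := by fun_prop
    have h2 : Continuous fun q : EE n × ℝ => ‖q.1‖ := by fun_prop
    exact ((isClosed_le h1 continuous_const).inter (isClosed_le h2 continuous_const)).measurableSet
  set sh : ℝ → EE n := fun τ => -z₁.2.1 + (t - τ - 2 * z₁.2.2) • η with hsh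
  have hE := bx_meas t D M η z₁
  rw [← (mp_jo n).measure_preimage hE.nullMeasurableSet]
  have e1 : (fun q : EE n × ℝ => jo q.1 q.2) ⁻¹' bx t D M η z₁ =
      {q : EE n × ℝ | (sh q.2 + q.1, q.2) ∈ T} := by
    ext q
    have e2 : Yz (zt (jo q.1 q.2) t - z₁) η = sh q.2 + q.1 := by
      unfold Yz zt
      simp only [Prod.snd_sub, Prod.fst_sub, jo_last, pr_jo, hsh]
      have e3 : 2 * ((t - q.2) / 2 - z₁.2.2) = t - q.2 - 2 * z₁.2.2 := by ring
      rw [e3]
      abel
    have e4 : Qz (zt (jo q.1 q.2) t - z₁) η = κ + ⟪sh q.2 + q.1, η⟫ + c * q.2 := by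
      unfold Qz zt
      simp only [Prod.snd_sub, Prod.fst_sub, jo_last, pr_jo, hsh]
      rw [inner_add_left, inner_add_left, inner_neg_left, inner_sub_left, real_inner_smul_left,
        real_inner_self_eq_norm_sq, hκ, hc]
      ring
    show |Qz (zt (jo q.1 q.2) t - z₁) η| ≤ D ∧ ‖Yz (zt (jo q.1 q.2) t - z₁) η‖ ≤ M ↔ _
    rw [e2, e4]
    rfl
  rw [e1]
  have hm2 : Measurable fun q : EE n × ℝ => (sh q.2 + q.1, q.2) := by
    simp only [hsh]
    fun_prop
  have hE2 : MeasurableSet {q : EE n × ℝ | (sh q.2 + q.1, q.2) ∈ T} := hm2 hTm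
  rw [Measure.prod_apply_symm hE2]
  have e5 : ∀ τ : ℝ, volume ((fun x : EE n => (x, τ)) ⁻¹' {q : EE n × ℝ | (sh q.2 + q.1, q.2) ∈ T}) =
      volume ((fun x : EE n => (x, τ)) ⁻¹' T) := by
    intro τ
    have e6 : (fun x : EE n => (x, τ)) ⁻¹' {q : EE n × ℝ | (sh q.2 + q.1, q.2) ∈ T} =
        (fun x : EE n => sh τ + x) ⁻¹' ((fun x : EE n => (x, τ)) ⁻¹' T) := rfl
    rw [e6, measure_preimage_add]
  simp_rw [e5]
  rw [← Measure.prod_apply_symm hTm, Measure.prod_apply hTm]
  have e7 : ∀ x : EE n, volume (Prod.mk x ⁻¹' T) ≤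
      (Metric.closedBall (0 : EE n) M).indicator (fun _ => ENNReal.ofReal (4 * D)) x := by
    intro x
    by_cases hx : x ∈ Metric.closedBall (0 : EE n) M
    · rw [indicator_of_mem hx]
      refine le_trans (measure_mono ?_) (vol_aff (κ + ⟪x, η⟫) c D hc1 hD)
      intro τ hτ
      exact hτ.1
    · rw [indicator_of_notMem hx]
      have : Prod.mk x ⁻¹' T = ∅ := by
        rw [eq_empty_iff_forall_notMem]
        intro τ hτ
        apply hx
        rw [mem_closedBall_zero_iff]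
        exact hτ.2
      rw [this, measure_empty]
  calc ∫⁻ x : EE n, volume (Prod.mk x ⁻¹' T)
      ≤ ∫⁻ x : EE n, (Metric.closedBall (0 : EE n) M).indicator
          (fun _ => ENNReal.ofReal (4 * D)) x := lintegral_mono e7
    _ = ENNReal.ofReal (4 * D) * volume (Metric.closedBall (0 : EE n) M) := by
        rw [lintegral_indicator Metric.isClosed_closedBall.measurableSet, setLIntegral_const]
    _ = ENNReal.ofReal (4 * D) * (ENNReal.ofReal (M ^ n) * ENNReal.ofReal v) := by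
        rw [Measure.addHaar_closedBall' _ _ hM, finrank_euclideanSpace, Fintype.card_fin, hv,
          ENNReal.ofReal_toReal measure_closedBall_lt_top.ne]
    _ = _ := by
        rw [← ENNReal.ofReal_mul (by positivity), ← ENNReal.ofReal_mul (by positivity)]
        congr 1
        ring

end

end Pool.Agent.H86.FD
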